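import Mathlib

/-!
# Definitions for the lower bound on the number of predecessors in the 3x+1 problem

`Cert` and `CertOK` describe finite certificates (tables of naturals indexed by residues modulo
`3^k`) for an inequality on weights of the tree of predecessors.
-/

namespace Pool.Agent.Lib_helper2.Collatz

/-- The Collatz map. -/
def T (n : ℕ) : ℕ := if n % 2 = 0 then n / 2 else 3 * n + 1

/-- Parent map on the integers congruent to `2` modulo `3`; it is an iterate of `T` along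
every point. -/
def par (x : ℕ) : ℕ :=
  if x % 4 = 0 then x / 4 else if x % 4 = 2 then (3 * x + 2) / 4 else (3 * x + 1) / 2

/-- Numerical parameters of a certificate: `g = u / v`, growth per digit `p = P1 / P2`,
`A / D ≤ 4^(-g)`, `B / D ≤ (3/4)^g / p`, `C / D ≤ (3/2)^g / p`. -/
structure Cert where
  k : ℕ
  q : ℕ
  u : ℕ
  v : ℕ
  A : ℕ
  B : ℕ
  C : ℕ
  D : ℕ
  P1 : ℕ
  P2 : ℕ

/-- Validity of a certificate with tables `c` (on residues modulo `3^k`) and `e` (on residues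
modulo `3^(k-1)`). -/
structure CertOK (K : Cert) (c e : ℕ → ℕ) : Prop where
  hk : 2 ≤ K.k
  hq : 1 ≤ K.q
  hu : 0 < K.u
  huv : K.u < K.v
  hApos : 0 < K.A
  hBpos : 0 < K.B
  hCpos : 0 < K.C
  hDpos : 0 < K.D
  hP2pos : 0 < K.P2
  hP : K.P2 < K.P1
  hcper : ∀ a, c (a + 3 ^ K.k) = c a
  heper : ∀ b, e (b + 3 ^ (K.k - 1)) = e b
  hcpos : ∀ a, a % 3 = 2 → 0 < c a
  hepos : ∀ b, b % 3 = 2 → 0 < e b
  h5 : ∀ a, a % 9 = 5 → K.D * c a ≤ K.A * c (4 * a)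
  h2 : ∀ a, a % 9 = 2 → K.D * c a ≤ K.A * c (4 * a) + K.B * e ((4 * a - 2) / 3)
  h8 : ∀ a, a % 9 = 8 → K.D * c a ≤ K.A * c (4 * a) + K.C * e ((2 * a - 1) / 3)
  hpow : ∀ b, b % 3 = 2 →
    (e b) ^ K.q * ((c b) ^ K.q * (c (b + 3 ^ (K.k - 1))) ^ K.q
      + (c b) ^ K.q * (c (b + 2 * 3 ^ (K.k - 1))) ^ K.q
      + (c (b + 3 ^ (K.k - 1))) ^ K.q * (c (b + 2 * 3 ^ (K.k - 1))) ^ K.q)
    ≤ 3 * ((c b) ^ K.q * (c (b + 3 ^ (K.k - 1))) ^ K.q * (c (b + 2 * 3 ^ (K.k - 1))) ^ K.q)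
  hA : K.A ^ K.v * 4 ^ K.u ≤ K.D ^ K.v
  hB : (K.B * K.P1) ^ K.v * 4 ^ K.u ≤ (K.D * K.P2) ^ K.v * 3 ^ K.u
  hC : (K.C * K.P1) ^ K.v * 2 ^ K.u ≤ (K.D * K.P2) ^ K.v * 3 ^ K.u

end Pool.Agent.Lib_helper2.Collatz
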