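import Pool.Agent.Lib_helper2.CollatzReal

/-!
# Antichains of descendants
-/

namespace Pool.Agent.Lib_helper2.Collatz

open Finset

/-- `P` is an antichain of descendants of `r` lying in `[4^i, 4^(i+1))`. -/
structure Anti (r i : ℕ) (P : Finset ℕ) : Prop where
  lo : ∀ a ∈ P, 4 ^ i ≤ a
  hi : ∀ a ∈ P, a < 4 ^ (i + 1)
  mod : ∀ a ∈ P, a % 3 = 2
  desc : ∀ a ∈ P, ∃ k, par^[k] a = r
  indep : ∀ a ∈ P, ∀ b ∈ P, ∀ k, par^[k] a = b → a = b

/-- There is an antichain of descendants of `r` in `[4^i, 4^(i+1))` with at least `4^y`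
elements. -/
def Has (r i : ℕ) (y : ℝ) : Prop := ∃ P : Finset ℕ, Anti r i P ∧ (4 : ℝ) ^ y ≤ P.card

theorem Anti.card_le {r i : ℕ} {P : Finset ℕ} (h : Anti r i P) : P.card ≤ 4 ^ (i + 1) := by
  have : P ⊆ range (4 ^ (i + 1)) := fun a ha => mem_range.mpr (h.hi a ha)
  simpa using card_le_card this

theorem Has.le {r i : ℕ} {y : ℝ} (h : Has r i y) : y ≤ i + 1 := by
  obtain ⟨P, hP, hy⟩ := h
  have h1 : (P.card : ℝ) ≤ 4 ^ (i + 1) := by exact_mod_cast hP.card_le
  have h2 : (4 : ℝ) ^ y ≤ (4 : ℝ) ^ ((i + 1 : ℕ) : ℝ) := by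
    rw [Real.rpow_natCast]; exact hy.trans h1
  have := (Real.rpow_le_rpow_left_iff (by norm_num : (1 : ℝ) < 4)).mp h2
  push_cast at this
  exact this

theorem Has.mono {r i : ℕ} {y y' : ℝ} (h : Has r i y) (hy : y' ≤ y) : Has r i y' := by
  obtain ⟨P, hP, h⟩ := h
  exact ⟨P, hP, (Real.rpow_le_rpow_of_exponent_le (by norm_num) hy).trans h⟩

/-- Replacing every element of an antichain by an antichain of its descendants. -/
theorem Anti.biUnion {r i n : ℕ} {P : Finset ℕ} (h : Anti r i P) (F : ℕ → Finset ℕ)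
    (hlo : ∀ a ∈ P, ∀ b ∈ F a, 4 ^ n ≤ b)
    (hhi : ∀ a ∈ P, ∀ b ∈ F a, b < 4 ^ (n + 1))
    (hmod : ∀ a ∈ P, ∀ b ∈ F a, b % 3 = 2)
    (hdesc : ∀ a ∈ P, ∀ b ∈ F a, ∃ k, par^[k] b = a)
    (hind : ∀ a ∈ P, ∀ b ∈ F a, ∀ b' ∈ F a, ∀ k, par^[k] b = b' → b = b') :
    Anti r n (P.biUnion F) ∧ (P.biUnion F).card = ∑ a ∈ P, (F a).card := by
  have key : ∀ a ∈ P, ∀ a' ∈ P, ∀ b ∈ F a, ∀ b' ∈ F a', ∀ k, par^[k] b = b' → a = a' := by
    intro a ha a' ha' b hb b' hb' k hk
    obtain ⟨s, hs⟩ := hdesc a ha b hb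
    obtain ⟨s', hs'⟩ := hdesc a' ha' b' hb'
    rw [← hk, ← Function.iterate_add_apply] at hs'
    rcases le_total s (s' + k) with h1 | h1
    · obtain ⟨d, hd⟩ := Nat.exists_eq_add_of_le h1
      rw [hd, Nat.add_comm, Function.iterate_add_apply, hs] at hs'
      exact h.indep a ha a' ha' d hs'
    · obtain ⟨d, hd⟩ := Nat.exists_eq_add_of_le h1
      rw [hd, Nat.add_comm, Function.iterate_add_apply, hs'] at hs
      exact (h.indep a' ha' a ha d hs).symm
  refine ⟨⟨?_, ?_, ?_, ?_, ?_⟩, ?_⟩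
  · intro b hb
    obtain ⟨a, ha, hb⟩ := mem_biUnion.mp hb
    exact hlo a ha b hb
  · intro b hb
    obtain ⟨a, ha, hb⟩ := mem_biUnion.mp hb
    exact hhi a ha b hb
  · intro b hb
    obtain ⟨a, ha, hb⟩ := mem_biUnion.mp hb
    exact hmod a ha b hb
  · intro b hb
    obtain ⟨a, ha, hb⟩ := mem_biUnion.mp hb
    obtain ⟨s, hs⟩ := hdesc a ha b hb
    obtain ⟨t, ht⟩ := h.desc a ha
    exact ⟨t + s, by rw [Function.iterate_add_apply, hs, ht]⟩
  · intro b hb b' hb' k hk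
    obtain ⟨a, ha, hb⟩ := mem_biUnion.mp hb
    obtain ⟨a', ha', hb'⟩ := mem_biUnion.mp hb'
    have haa := key a ha a' ha' b hb b' hb' k hk
    subst haa
    exact hind a ha b hb b' hb' k hk
  · apply card_biUnion
    intro a ha a' ha' hne
    show Disjoint (F a) (F a')
    rw [Finset.disjoint_left]
    intro b hb hb'
    exact hne (key a ha a' ha' b hb b hb' 0 rfl)

theorem NP.of_desc {r a : ℕ} (hr : NP r) (h : ∃ k, par^[k] a = r) : NP a := by
  obtain ⟨k, hk⟩ := h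
  exact hr.desc k a hk

theorem Has.four {r i : ℕ} {y : ℝ} (h : Has r i y) : Has r (i + 1) y := by
  obtain ⟨P, hP, hy⟩ := h
  have h1 := hP.biUnion (n := i + 1) (fun a => {4 * a})
    (by intro a ha b hb; have := hP.lo a ha; rw [mem_singleton.mp hb, pow_succ]; omega)
    (by intro a ha b hb; have := hP.hi a ha; rw [mem_singleton.mp hb, pow_succ]; omega)
    (by intro a ha b hb; have := hP.mod a ha; rw [mem_singleton.mp hb]; omega)
    (by intro a ha b hb; exact ⟨1, by rw [mem_singleton.mp hb]; exact par_four a⟩)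
    (by intro a ha b hb b' hb' k _; rw [mem_singleton.mp hb, mem_singleton.mp hb'])
  refine ⟨_, h1.1, ?_⟩
  rw [h1.2]
  simpa using hy

theorem Has.add {r i : ℕ} {y : ℝ} (h : Has r i y) (t : ℕ) : Has r (i + t) y := by
  induction t with
  | zero => exact h
  | succ t ih => exact ih.four

theorem Has.of_le {r i i' : ℕ} {y : ℝ} (h : Has r i y) (hi : i ≤ i') : Has r i' y := by
  obtain ⟨t, rfl⟩ := Nat.exists_eq_add_of_le hi
  exact h.add t

/-! ### Doubling -/

/-- Two incomparable descendants three bands higher. -/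
theorem two_desc {a i : ℕ} (ha : a % 3 = 2) (hNP : NP a) (hlo : 4 ^ i ≤ a) (hhi : a < 4 ^ (i + 1)) :
    ∃ F : Finset ℕ, F.card = 2 ∧ (∀ b ∈ F, 4 ^ (i + 3) ≤ b) ∧ (∀ b ∈ F, b < 4 ^ (i + 3 + 1)) ∧
      (∀ b ∈ F, b % 3 = 2) ∧ (∀ b ∈ F, ∃ k, par^[k] b = a) ∧
      (∀ b ∈ F, ∀ b' ∈ F, ∀ k, par^[k] b = b' → b = b') := by
  -- iterating multiplication by four
  have hpow : ∀ (t x : ℕ), par^[t] (4 ^ t * x) = x := by
    intro t
    induction t with
    | zero => intro x; simp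
    | succ t ih =>
      intro x
      rw [Function.iterate_succ_apply, pow_succ, show 4 ^ t * 4 * x = 4 * (4 ^ t * x) by ring,
        par_four, ih]
  have main : ∀ (t s x : ℕ), t < 3 → x = 4 ^ t * a → x % 9 = 8 →
      4 ^ (i + 3) ≤ 4 ^ s * ((2 * x - 1) / 3) → 4 ^ s * ((2 * x - 1) / 3) < 4 ^ (i + 3 + 1) →
      ∃ F : Finset ℕ, F.card = 2 ∧ (∀ b ∈ F, 4 ^ (i + 3) ≤ b) ∧ (∀ b ∈ F, b < 4 ^ (i + 3 + 1)) ∧
      (∀ b ∈ F, b % 3 = 2) ∧ (∀ b ∈ F, ∃ k, par^[k] b = a) ∧
      (∀ b ∈ F, ∀ b' ∈ F, ∀ k, par^[k] b = b' → b = b') := by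
    intro t s x ht hx hx8 h1 h2
    have hxNP : NP x := hNP.desc t x (by rw [hx]; exact hpow t a)
    -- the two elements
    have d1 : par^[2 - t] (64 * a) = 4 * x := by
      rw [hx, show 64 * a = 4 ^ (2 - t) * (4 * (4 ^ t * a)) by
        have : 4 ^ (2 - t) * 4 ^ t = 16 := by
          rw [← pow_add, show 2 - t + t = 2 by omega]; norm_num
        calc 64 * a = 16 * (4 * a) := by ring
          _ = 4 ^ (2 - t) * 4 ^ t * (4 * a) := by rw [this]
          _ = 4 ^ (2 - t) * (4 * (4 ^ t * a)) := by ring]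
      exact hpow _ _
    have d2 : par^[s] (4 ^ s * ((2 * x - 1) / 3)) = (2 * x - 1) / 3 := hpow _ _
    set b1 := 64 * a with hb1
    set b2 := 4 ^ s * ((2 * x - 1) / 3) with hb2
    have hcross1 : ∀ k, par^[k] b1 ≠ b2 := by
      intro k hk
      have : par^[s + k] b1 = (2 * x - 1) / 3 := by
        rw [Function.iterate_add_apply, hk, d2]
      exact sib hxNP (par_four x) (par_eight hx8) (by omega) d1 this
    have hcross2 : ∀ k, par^[k] b2 ≠ b1 := by
      intro k hk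
      have : par^[2 - t + k] b2 = 4 * x := by
        rw [Function.iterate_add_apply, hk, d1]
      exact sib hxNP (par_four x) (par_eight hx8) (by omega) this d2
    have hne : b1 ≠ b2 := hcross1 0
    refine ⟨{b1, b2}, card_pair hne, ?_, ?_, ?_, ?_, ?_⟩
    · intro b hb
      rcases mem_insert.mp hb with rfl | hb
      · rw [hb1, pow_add]; omega
      · rw [mem_singleton.mp hb]; exact h1
    · intro b hb
      rcases mem_insert.mp hb with rfl | hb
      · rw [hb1, show i + 3 + 1 = (i + 1) + 3 by ring, pow_add]; omega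
      · rw [mem_singleton.mp hb]; exact h2
    · intro b hb
      rcases mem_insert.mp hb with rfl | hb
      · omega
      · rw [mem_singleton.mp hb, hb2]
        have h3 : ∀ (n y : ℕ), y % 3 = 2 → (4 ^ n * y) % 3 = 2 := by
          intro n
          induction n with
          | zero => intro y hy; simpa using hy
          | succ n ih =>
            intro y hy
            rw [pow_succ, mul_assoc]
            exact ih _ (by omega)
        exact h3 s _ (mod3_eight hx8)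
    · intro b hb
      rcases mem_insert.mp hb with rfl | hb
      · exact ⟨3, by rw [hb1]; exact hpow 3 a⟩
      · rw [mem_singleton.mp hb]
        refine ⟨t + (1 + s), ?_⟩
        rw [Function.iterate_add_apply, Function.iterate_add_apply, d2, Function.iterate_one,
          par_eight hx8, hx]
        exact hpow t a
    · intro b hb b' hb' k hk
      rcases mem_insert.mp hb with rfl | hb <;> rcases mem_insert.mp hb' with rfl | hb'
      · rfl
      · rw [mem_singleton.mp hb'] at hk; exact absurd hk (hcross1 k)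
      · rw [mem_singleton.mp hb] at hk; exact absurd hk (hcross2 k)
      · rw [mem_singleton.mp hb, mem_singleton.mp hb']
  -- choice of the multiple congruent to 8 modulo 9
  have choose : ∀ (t x : ℕ), t < 3 → x = 4 ^ t * a → x % 9 = 8 →
      ∃ F : Finset ℕ, F.card = 2 ∧ (∀ b ∈ F, 4 ^ (i + 3) ≤ b) ∧ (∀ b ∈ F, b < 4 ^ (i + 3 + 1)) ∧
      (∀ b ∈ F, b % 3 = 2) ∧ (∀ b ∈ F, ∃ k, par^[k] b = a) ∧
      (∀ b ∈ F, ∀ b' ∈ F, ∀ k, par^[k] b = b' → b = b') := by
    intro t x ht hx hx8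
    have hxlo : 4 ^ (i + t) ≤ x := by rw [hx, pow_add, mul_comm]; exact Nat.mul_le_mul_left _ hlo
    have hxhi : x < 4 ^ (i + t + 1) := by
      rw [hx, show i + t + 1 = t + (i + 1) by ring, pow_add]
      exact Nat.mul_lt_mul_of_pos_left hhi (by positivity)
    set y := (2 * x - 1) / 3 with hy
    have hyx : 3 * y + 1 = 2 * x := by omega
    by_cases hcase : 4 ^ (i + t) ≤ y
    · apply main t (3 - t) x ht hx hx8
      · calc 4 ^ (i + 3) = 4 ^ (3 - t) * 4 ^ (i + t) := by rw [← pow_add]; congr 1; omega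
          _ ≤ 4 ^ (3 - t) * y := Nat.mul_le_mul_left _ hcase
      · calc 4 ^ (3 - t) * y < 4 ^ (3 - t) * 4 ^ (i + t + 1) :=
              Nat.mul_lt_mul_of_pos_left (by omega) (by positivity)
          _ = 4 ^ (i + 3 + 1) := by rw [← pow_add]; congr 1; omega
    · apply main t (4 - t) x ht hx hx8
      · have : 4 ^ (i + t) ≤ 4 * y := by
          have h1 : 1 ≤ 4 ^ (i + t) := Nat.one_le_pow _ _ (by norm_num)
          omega
        calc 4 ^ (i + 3) = 4 ^ (3 - t) * 4 ^ (i + t) := by rw [← pow_add]; congr 1; omega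
          _ ≤ 4 ^ (3 - t) * (4 * y) := Nat.mul_le_mul_left _ this
          _ = 4 ^ (4 - t) * y := by rw [show 4 - t = (3 - t) + 1 by omega, pow_succ]; ring
      · calc 4 ^ (4 - t) * y < 4 ^ (4 - t) * 4 ^ (i + t) :=
              Nat.mul_lt_mul_of_pos_left (by omega) (by positivity)
          _ = 4 ^ (i + 3 + 1) := by rw [← pow_add]; congr 1; omega
  rcases (by omega : a % 9 = 8 ∨ a % 9 = 2 ∨ a % 9 = 5) with h | h | h
  · exact choose 0 a (by norm_num) (by simp) h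
  · exact choose 1 (4 * a) (by norm_num) (by simp) (by omega)
  · exact choose 2 (16 * a) (by norm_num) (by norm_num) (by omega)

theorem Has.double {r i : ℕ} {y : ℝ} (hr : NP r) (h : Has r i y) : Has r (i + 3) (y + 1 / 2) := by
  classical
  obtain ⟨P, hP, hy⟩ := h
  have hF : ∀ a : ℕ, ∃ F : Finset ℕ, a ∈ P → F.card = 2 ∧ (∀ b ∈ F, 4 ^ (i + 3) ≤ b) ∧
      (∀ b ∈ F, b < 4 ^ (i + 3 + 1)) ∧ (∀ b ∈ F, b % 3 = 2) ∧ (∀ b ∈ F, ∃ k, par^[k] b = a) ∧
      (∀ b ∈ F, ∀ b' ∈ F, ∀ k, par^[k] b = b' → b = b') := by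
    intro a
    by_cases ha : a ∈ P
    · obtain ⟨F, hF⟩ := two_desc (hP.mod a ha) (hr.of_desc (hP.desc a ha)) (hP.lo a ha)
        (hP.hi a ha)
      exact ⟨F, fun _ => hF⟩
    · exact ⟨∅, fun h => absurd h ha⟩
  choose F hF using hF
  have h1 := hP.biUnion (n := i + 3) F (fun a ha => (hF a ha).2.1)
    (fun a ha => (hF a ha).2.2.1) (fun a ha => (hF a ha).2.2.2.1)
    (fun a ha => (hF a ha).2.2.2.2.1) (fun a ha => (hF a ha).2.2.2.2.2)
  refine ⟨_, h1.1, ?_⟩
  rw [h1.2, sum_congr rfl fun a ha => (hF a ha).1, sum_const, smul_eq_mul]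
  push_cast
  have h4 : (4 : ℝ) ^ (1 / 2 : ℝ) = 2 := by
    rw [show (4 : ℝ) = 2 ^ (2 : ℝ) by norm_num, ← Real.rpow_mul (by norm_num)]
    norm_num
  rw [Real.rpow_add (by norm_num), h4]
  linarith

end Pool.Agent.Lib_helper2.Collatz
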