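import Pool.Agent.Lib_helper2.CollatzStep2

/-!
# Chains of steps: exponents reached infinitely often, and then always
-/

namespace Pool.Agent.Lib_helper2.Collatz

open Finset Filter Topology

variable {g p A B C : ℝ} {k q : ℕ} {c e : ℕ → ℝ}

/-- The exponent `s` is reached in infinitely many bands. -/
def IO (r : ℕ) (s : ℝ) : Prop := ∀ i0 : ℕ, ∃ i, i0 ≤ i ∧ Has r i (s * i)

theorem IO.mono {r : ℕ} {s s' : ℝ} (h : IO r s) (hs : s' ≤ s) : IO r s' := by
  intro i0
  obtain ⟨i, hi, h⟩ := h i0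
  exact ⟨i, hi, h.mono (mul_le_mul_of_nonneg_right hs (Nat.cast_nonneg _))⟩

theorem IO.base {r : ℕ} (hr : NP r) (hr3 : r % 3 = 2) : ∀ s < (1 / 6 : ℝ), IO r s := by
  intro s hs i0
  -- the first band
  have h0 : Has r (Nat.log 4 r) 0 := by
    refine ⟨{r}, ⟨?_, ?_, ?_, ?_, ?_⟩, ?_⟩
    · intro a ha; rw [mem_singleton.mp ha]; exact Nat.pow_log_le_self 4 (by omega)
    · intro a ha; rw [mem_singleton.mp ha]; exact Nat.lt_pow_succ_log_self (by norm_num) _
    · intro a ha; rw [mem_singleton.mp ha]; exact hr3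
    · intro a ha; exact ⟨0, by rw [mem_singleton.mp ha]; rfl⟩
    · intro a ha b hb k _; rw [mem_singleton.mp ha, mem_singleton.mp hb]
    · simp
  have hd : ∀ t : ℕ, Has r (Nat.log 4 r + 3 * t) (t / 2) := by
    intro t
    induction t with
    | zero => simpa using h0
    | succ t ih =>
      have := ih.double hr
      rw [show Nat.log 4 r + 3 * (t + 1) = Nat.log 4 r + 3 * t + 3 by ring]
      refine this.mono (le_of_eq ?_)
      push_cast; ring
  have hpos : 0 < 1 / 2 - 3 * s := by linarith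
  obtain ⟨t, ht⟩ := exists_nat_ge (s * (Nat.log 4 r) / (1 / 2 - 3 * s))
  refine ⟨Nat.log 4 r + 3 * (t + i0), by omega, (hd (t + i0)).mono ?_⟩
  have ht' : s * (Nat.log 4 r) ≤ (t + i0 : ℝ) * (1 / 2 - 3 * s) := by
    have h1 : s * (Nat.log 4 r) ≤ t * (1 / 2 - 3 * s) := (div_le_iff₀ hpos).mp ht
    have h2 : (0 : ℝ) ≤ i0 * (1 / 2 - 3 * s) := by positivity
    linarith
  push_cast
  nlinarith

theorem log_small (K : ℝ) (a b : ℕ) {α : ℝ} (hα : 0 < α) :
    ∃ i0 : ℕ, ∀ i : ℕ, i0 ≤ i → K + 4 * Real.logb 4 ((a : ℝ) * i + b) ≤ α * i := by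
  have hl4 : (0 : ℝ) < Real.log 4 := Real.log_pos (by norm_num)
  by_cases ha : a = 0
  · subst ha
    obtain ⟨i0, hi0⟩ := exists_nat_ge ((K + 4 * Real.logb 4 b) / α)
    refine ⟨i0, fun i hi => ?_⟩
    have h1 : (i0 : ℝ) ≤ i := by exact_mod_cast hi
    have h2 := (div_le_iff₀ hα).mp (hi0.trans h1)
    rw [Nat.cast_zero, zero_mul, zero_add, mul_comm α]
    exact h2
  have ha0 : (0 : ℝ) < a := by exact_mod_cast Nat.pos_of_ne_zero ha
  have htend : Tendsto (fun i : ℕ => (a : ℝ) * i + b) atTop atTop := by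
    apply Tendsto.atTop_add _ (tendsto_const_nhds (x := (b : ℝ)))
    exact Tendsto.const_mul_atTop ha0 tendsto_natCast_atTop_atTop
  set c : ℝ := α * Real.log 4 / (8 * a) with hc
  have hc0 : 0 < c := by positivity
  have h1 := (Real.isLittleO_log_id_atTop.comp_tendsto htend).def hc0
  have h2 : ∀ᶠ i : ℕ in atTop, (K + α * b / (2 * a)) ≤ α / 2 * i := by
    obtain ⟨i0, hi0⟩ := exists_nat_ge ((K + α * b / (2 * a)) / (α / 2))
    filter_upwards [eventually_ge_atTop i0] with i hi
    have h1 : (i0 : ℝ) ≤ i := by exact_mod_cast hi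
    have h2 := (div_le_iff₀ (by positivity : 0 < α / 2)).mp (hi0.trans h1)
    rw [mul_comm (α / 2)]; exact h2
  obtain ⟨i0, hi0⟩ := eventually_atTop.mp (h1.and h2)
  refine ⟨i0, fun i hi => ?_⟩
  obtain ⟨h3, h4⟩ := hi0 i hi
  simp only [Function.comp_apply, id, Real.norm_eq_abs] at h3
  have h5 : (0 : ℝ) ≤ (a : ℝ) * i + b := by positivity
  rw [abs_of_nonneg h5] at h3
  have h6 : Real.log ((a : ℝ) * i + b) ≤ c * (a * i + b) := (le_abs_self _).trans h3
  have h7 : 4 * Real.logb 4 ((a : ℝ) * i + b) ≤ α / 2 * i + α * b / (2 * a) := by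
    rw [Real.logb, ← mul_div_assoc, div_le_iff₀ hl4]
    calc 4 * Real.log ((a : ℝ) * i + b) ≤ 4 * (c * (a * i + b)) := by linarith
      _ = (α / 2 * i + α * b / (2 * a)) * Real.log 4 := by
          rw [hc]; field_simp; ring
  linarith

theorem logb_mono {x y : ℝ} (hx : 0 < x) (hxy : x ≤ y) : Real.logb 4 x ≤ Real.logb 4 y :=
  Real.logb_le_logb_of_le (by norm_num) hx hxy

theorem IO.step (H : RC g p A B C k q c e) {r : ℕ} (hr : NP r) {s s' : ℝ} (hs0 : 0 < s)
    (hss : s < s') (hsg : s' < g)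
    (hcond : s' * (g - (Real.logb 3 p - (1 - s) / q)) < g * s) (h : IO r s) : IO r s' := by
  have hg0 := H.hg0
  have hg1 := H.hg1
  have hq1 : (1 : ℝ) ≤ q := by exact_mod_cast H.hq
  have hq0 : (0 : ℝ) < q := by linarith
  obtain ⟨K, hK, hstep⟩ := Collatz.step H hr
  intro i0
  set δ := Real.logb 3 p - (1 - s) / q with hδ
  have hgs : 0 < g - s' := by linarith
  obtain ⟨L, hL⟩ := exists_nat_ge (4 / (g - s'))
  have hL4 : 4 ≤ (g - s') * L := by
    have := (div_le_iff₀ hgs).mp hL
    linarith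
  have hL4' : (4 : ℝ) ≤ L := by nlinarith
  have hL1 : 1 ≤ L := by
    have : (1 : ℝ) ≤ L := by linarith
    exact_mod_cast this
  set α1 : ℝ := (g * s - s' * (g - δ)) / g with hα1
  have hα10 : 0 < α1 := div_pos (by linarith) hg0
  set α : ℝ := min α1 (min 1 (s / 2)) with hα
  have hα0 : 0 < α := lt_min hα10 (lt_min one_pos (by linarith))
  obtain ⟨i1, hi1⟩ := log_small K L 3 hα0
  obtain ⟨i2, hi2⟩ := exists_nat_ge (2 * ((i0 : ℝ) + 1) / s)
  obtain ⟨i, hi, hHas⟩ := h (max (max i1 i2) (max (k + 2) (i0 + 1)))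
  have hii1 : i1 ≤ i := by omega
  have hii2 : i2 ≤ i := by omega
  have hik : k + 2 ≤ i := by omega
  have hi0 : i0 + 1 ≤ i := by omega
  have hLi : i ≤ L * i := Nat.le_mul_of_pos_left i (by omega)
  obtain ⟨n, hn, hcases⟩ := hstep i (L * i) hik hLi (s * i) hHas
  set κ := K + 4 * Real.logb 4 ((n : ℝ) + 2) with hκ
  have hi_pos : (0 : ℝ) < i := by
    have : 0 < i := by omega
    exact_mod_cast this
  have hi1' : (1 : ℝ) ≤ i := by
    have : 1 ≤ i := by omega
    exact_mod_cast this
  have hκle : κ ≤ α * i := by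
    refine le_trans ?_ (hi1 i hii1)
    have hn' : (n : ℝ) ≤ L * i + 1 := by exact_mod_cast hn
    have : Real.logb 4 ((n : ℝ) + 2) ≤ Real.logb 4 ((L : ℝ) * i + (3 : ℕ)) := by
      apply logb_mono (by positivity)
      push_cast; linarith
    rw [hκ]; linarith
  have hκ1 : κ ≤ α1 * i := hκle.trans (mul_le_mul_of_nonneg_right (min_le_left _ _) hi_pos.le)
  have hκ2 : κ ≤ 1 * i := hκle.trans (mul_le_mul_of_nonneg_right
    ((min_le_right _ _).trans (min_le_left _ _)) hi_pos.le)
  have hκ3 : κ ≤ s / 2 * i := hκle.trans (mul_le_mul_of_nonneg_right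
    ((min_le_right _ _).trans (min_le_right _ _)) hi_pos.le)
  have hi2' : (i0 : ℝ) + 1 ≤ s / 2 * i := by
    have h1 : (i2 : ℝ) ≤ i := by exact_mod_cast hii2
    have h2 := (div_le_iff₀ hs0).mp (hi2.trans h1)
    linarith
  refine ⟨n, ?_, ?_⟩
  · rcases hcases with ⟨h1, -⟩ | ⟨h1, -⟩
    · have h2 := h1.le
      have h3 : (i0 : ℝ) ≤ n := by linarith
      exact_mod_cast h3
    · have : i ≤ n + 1 := hLi.trans h1
      omega
  · rcases hcases with ⟨h1, h2⟩ | ⟨h1, h2⟩
    · by_cases hcase : s' * n ≤ s * i - κ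
      · exact h1.mono hcase
      · have hcase := not_le.mp hcase
        refine h2.mono ?_
        have hs'0 : 0 < s' := hs0.trans hss
        -- multiply by s'
        have hκg : g * κ ≤ (g * s - s' * (g - δ)) * i := by
          calc g * κ ≤ g * (α1 * i) := mul_le_mul_of_nonneg_left hκ1 hg0.le
            _ = (g * s - s' * (g - δ)) * i := by rw [hα1]; field_simp
        have h3 : (g - s') * (s * i - κ) ≤ (g - s') * (s' * n) :=
          mul_le_mul_of_nonneg_left hcase.le hgs.le
        have h4 : s' * ((g - s - δ) * i + κ) ≤ s' * ((g - s') * n) := by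
          nlinarith
        have h5 := le_of_mul_le_mul_left h4 hs'0
        have e1 : (s * i - i) / q = -((1 - s) / q) * i := by ring
        rw [e1]
        have e2 : (g - s - δ) * i = g * i - s * i - Real.logb 3 p * i + ((1 - s) / q) * i := by
          rw [hδ]; ring
        linarith
    · refine h2.mono ?_
      have hn' : (L : ℝ) * i - 1 ≤ n := by
        have : ((L * i : ℕ) : ℝ) ≤ ((n + 1 : ℕ) : ℝ) := by exact_mod_cast h1
        push_cast at this; linarith
      have h3 : (g - s') * ((L : ℝ) * i - 1) ≤ (g - s') * n := mul_le_mul_of_nonneg_left hn' hgs.le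
      have h4 : 4 * (i : ℝ) ≤ (g - s') * L * i := mul_le_mul_of_nonneg_right hL4 hi_pos.le
      have e1 : (s * i - i) / q = -((1 - s) / q * i) := by ring
      have h5 : (1 - s) / q * i ≤ 1 * i := by
        apply mul_le_mul_of_nonneg_right _ hi_pos.le
        rw [div_le_one hq0]; linarith
      have h6 : g * i ≤ 1 * i := mul_le_mul_of_nonneg_right hg1.le hi_pos.le
      have h7 : 0 ≤ s * i := by positivity
      rw [e1]
      nlinarith

/-- If the growth condition holds at the exponent `a`, one certificate leads up to its own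
exponent. -/
theorem IO.chain (H : RC g p A B C k q c e) {r : ℕ} (hr : NP r) {a : ℝ} (ha : 0 < a)
    (hδ : 1 - a < q * Real.logb 3 p) (h : ∀ s < a, IO r s) : ∀ s < g, IO r s := by
  have hg0 := H.hg0
  have hg1 := H.hg1
  have hq1 : (1 : ℝ) ≤ q := by exact_mod_cast H.hq
  have hq0 : (0 : ℝ) < q := by linarith
  intro s1 hs1
  by_contra hcon
  have hbdd : BddAbove {x | IO r x} := by
    refine ⟨s1, fun x hx => ?_⟩
    by_contra hlt
    exact hcon (IO.mono hx (not_le.mp hlt).le)
  have hne : ({x | IO r x} : Set ℝ).Nonempty := ⟨a - 1, h (a - 1) (by linarith)⟩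
  set S := sSup {x | IO r x} with hS
  have hSle : S ≤ s1 := by
    apply csSup_le hne
    intro x hx
    by_contra hlt
    exact hcon (IO.mono hx (not_le.mp hlt).le)
  have hSg : S < g := lt_of_le_of_lt hSle hs1
  have hbelow : ∀ x < S, IO r x := by
    intro x hx
    obtain ⟨y, hy, hxy⟩ := exists_lt_of_lt_csSup hne hx
    exact IO.mono hy hxy.le
  have hSa : a ≤ S := by
    by_contra hlt
    have hlt := not_le.mp hlt
    have : (S + a) / 2 ≤ S := le_csSup hbdd (h ((S + a) / 2) (by linarith))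
    linarith
  have hS0 : 0 < S := lt_of_lt_of_le ha hSa
  -- continuity
  set φ : ℝ → ℝ := fun t => g * (S - t)
    - (S + t) * (g - (Real.logb 3 p - (1 - (S - t)) / q)) with hφ
  have hcont : Continuous φ := by
    rw [hφ]; fun_prop
  have hφ0 : 0 < φ 0 := by
    rw [hφ]
    simp only [sub_zero, add_zero]
    have h1 : (1 - S) / q < Real.logb 3 p := by
      rw [div_lt_iff₀ hq0]
      linarith
    have : g * S - S * (g - (Real.logb 3 p - (1 - S) / q))
        = S * (Real.logb 3 p - (1 - S) / q) := by ring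
    rw [this]
    exact mul_pos hS0 (by linarith)
  have hev1 : ∀ᶠ t in 𝓝[>] (0 : ℝ), 0 < φ t :=
    (hcont.continuousAt.eventually_const_lt hφ0).filter_mono nhdsWithin_le_nhds
  have hev2 : ∀ᶠ t in 𝓝[>] (0 : ℝ), t < min S (g - S) :=
    (eventually_lt_nhds (lt_min hS0 (by linarith))).filter_mono nhdsWithin_le_nhds
  have hev3 : ∀ᶠ t in 𝓝[>] (0 : ℝ), 0 < t := eventually_mem_nhdsWithin
  obtain ⟨t, ⟨ht1, ht2⟩, ht3⟩ := ((hev1.and hev2).and hev3).exists
  have ht4 : t < S := lt_of_lt_of_le ht2 (min_le_left _ _)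
  have ht5 : t < g - S := lt_of_lt_of_le ht2 (min_le_right _ _)
  have hio := IO.step H hr (s := S - t) (s' := S + t) (by linarith) (by linarith) (by linarith)
    (by rw [hφ] at ht1; simp only at ht1; linarith) (hbelow (S - t) (by linarith))
  have := le_csSup hbdd hio
  linarith

/-- From infinitely many bands to all large bands. -/
theorem all_bands (H : RC g p A B C k q c e) {r : ℕ} (hr : NP r)
    (hδ : 1 - g < q * Real.logb 3 p) (h : ∀ s < g, IO r s) {γ : ℝ}
    (hγ : γ < g - (1 - g) / q) : ∃ j0 : ℕ, ∀ j : ℕ, j0 ≤ j → Has r j (γ * j) := by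
  have hg0 := H.hg0
  have hg1 := H.hg1
  have hq1 : (1 : ℝ) ≤ q := by exact_mod_cast H.hq
  have hq0 : (0 : ℝ) < q := by linarith
  have hδ' : (1 - g) / q < Real.logb 3 p := by
    rw [div_lt_iff₀ hq0]; linarith
  set ε : ℝ := min (min ((g - (1 - g) / q - γ) / 4) ((Real.logb 3 p - (1 - g) / q) / 4)) (g / 2)
    with hε
  have hε0 : 0 < ε := lt_min (lt_min (by linarith) (by linarith)) (by linarith)
  have hε1 : ε ≤ (g - (1 - g) / q - γ) / 4 := (min_le_left _ _).trans (min_le_left _ _)
  have hε2 : ε ≤ (Real.logb 3 p - (1 - g) / q) / 4 := (min_le_left _ _).trans (min_le_right _ _)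
  have hε3 : ε ≤ g / 2 := min_le_right _ _
  have hεq : ε / q ≤ ε := div_le_self hε0.le hq1
  set g' := g - ε with hg'
  have hg'0 : 0 < g' := by linarith
  have hg'1 : g' < 1 := by linarith
  have eq1 : (1 - g') / q = (1 - g) / q + ε / q := by rw [hg']; ring
  set Θ := Real.logb 3 p - (1 - g') / q - ε with hΘ
  have hΘ0 : 0 < Θ := by rw [hΘ, eq1]; linarith
  obtain ⟨K, hK, hstep⟩ := Collatz.step H hr
  -- the loss is dominated by a small multiple of the band
  obtain ⟨n0, hn0⟩ := log_small K 1 2 hε0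
  set Cε := K + 4 * Real.logb 4 ((n0 : ℝ) + 2) with hCε
  have hCε : ∀ n : ℕ, K + 4 * Real.logb 4 ((n : ℝ) + 2) ≤ ε * n + Cε := by
    intro n
    have hlog0 : 0 ≤ Real.logb 4 ((n0 : ℝ) + 2) := Real.logb_nonneg (by norm_num) (by
      have : (0 : ℝ) ≤ n0 := Nat.cast_nonneg n0
      linarith)
    by_cases hn : n0 ≤ n
    · have := hn0 n hn
      push_cast at this
      rw [one_mul] at this
      rw [hCε]; linarith
    · have h1 : Real.logb 4 ((n : ℝ) + 2) ≤ Real.logb 4 ((n0 : ℝ) + 2) := by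
        apply logb_mono (by positivity)
        have : (n : ℝ) ≤ n0 := by exact_mod_cast (not_le.mp hn).le
        linarith
      have h2 : 0 ≤ ε * n := by positivity
      rw [hCε]; linarith
  obtain ⟨i1, hi1⟩ := exists_nat_ge ((1 + Cε) / Θ)
  set i0 := max i1 (k + 2) with hi0
  have hi0Θ : ∀ i : ℕ, i0 ≤ i → 1 + Cε ≤ Θ * i := by
    intro i hi
    have h1 : (i1 : ℝ) ≤ i := by
      have : i1 ≤ i := by omega
      exact_mod_cast this
    have := (div_le_iff₀ hΘ0).mp (hi1.trans h1)
    linarith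
  -- the start
  obtain ⟨i2, hi2⟩ := exists_nat_ge ((i0 : ℝ) / (ε / 2))
  obtain ⟨is, his, hstart⟩ := h (g - ε / 2) (by linarith) (max i2 i0)
  have his0 : i0 ≤ is := by omega
  have hstartΦ : (i0 : ℝ) ≤ (g - ε / 2) * is - g' * is := by
    have h1 : (i2 : ℝ) ≤ is := by
      have : i2 ≤ is := by omega
      exact_mod_cast this
    have := (div_le_iff₀ (by linarith : 0 < ε / 2)).mp (hi2.trans h1)
    rw [hg']
    linarith
  -- the main claim
  have claim : ∀ j : ℕ, ∀ t : ℕ, ∀ (i : ℕ) (y : ℝ), i0 ≤ i → i ≤ j + 1 → Has r i y →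
      (i0 : ℝ) ≤ y - g' * i → (1 - g') * (j + 1) + 1 - (y - g' * i) ≤ t →
      Has r (j + 1) ((g' - (1 - g') / q) * j - 1
        - (K + 4 * Real.logb 4 (((j + 1 : ℕ) : ℝ) + 2))) := by
    intro j
    have hlogj : 0 ≤ Real.logb 4 (((j + 1 : ℕ) : ℝ) + 2) := Real.logb_nonneg (by norm_num) (by
      have : (0 : ℝ) ≤ ((j + 1 : ℕ) : ℝ) := Nat.cast_nonneg _
      linarith)
    have hj0 : (0 : ℝ) ≤ j := Nat.cast_nonneg j
    have hgq : (0 : ℝ) ≤ (1 - g') / q := div_nonneg (by linarith) hq0.le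
    have hgqj : 0 ≤ (1 - g') / q * j := mul_nonneg hgq hj0
    -- one step
    have one : ∀ (i : ℕ) (y : ℝ), i0 ≤ i → i ≤ j + 1 → Has r i y → (i0 : ℝ) ≤ y - g' * i →
        Has r (j + 1) ((g' - (1 - g') / q) * j - 1
          - (K + 4 * Real.logb 4 (((j + 1 : ℕ) : ℝ) + 2))) ∨
        ∃ (n : ℕ) (y' : ℝ), i0 ≤ n ∧ n ≤ j + 1 ∧ Has r n y' ∧ y - g' * i + 1 ≤ y' - g' * n := by
      intro i y hi hij hHas hΦ
      have hi0' : (0 : ℝ) ≤ i0 := Nat.cast_nonneg _
      by_cases hij' : i ≤ j
      · obtain ⟨n, hn, hcases⟩ := hstep i j (by omega) hij' y hHas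
        have hyi : -((1 - g') / q) * i ≤ (y - i) / q := by
          have : -((1 - g') / q) * i = (-(1 - g') * i) / q := by ring
          rw [this]
          apply div_le_div_of_nonneg_right _ hq0.le
          linarith
        rcases hcases with ⟨-, h2⟩ | ⟨h1, h2⟩
        · right
          have hstep1 : y - g' * i + 1 ≤ y + (y - i) / q + Real.logb 3 p * i
              + g * ((n : ℝ) - i) - (K + 4 * Real.logb 4 ((n : ℝ) + 2)) - g' * n := by
            have h3 := hCε n
            have h4 := hi0Θ i hi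
            rw [hΘ] at h4
            have e1 : (Real.logb 3 p - (1 - g') / q - ε) * i
                = Real.logb 3 p * i - (1 - g') / q * i - ε * i := by ring
            rw [e1] at h4
            have e2 : g * ((n : ℝ) - i) - g' * n = ε * n - g * i := by rw [hg']; ring
            have e3 : g' * i = g * i - ε * i := by rw [hg']; ring
            linarith
          refine ⟨n, _, ?_, hn, h2, hstep1⟩
          have h3 := h2.le
          have h4 : (i0 : ℝ) ≤ (1 - g') * n := by linarith
          have h5 : (1 - g') * n ≤ 1 * n := mul_le_mul_of_nonneg_right (by linarith)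
            (Nat.cast_nonneg _)
          have h6 : (i0 : ℝ) ≤ n := by linarith
          exact_mod_cast h6
        · left
          refine (h2.of_le hn).mono ?_
          have h3 : Real.logb 4 ((n : ℝ) + 2) ≤ Real.logb 4 (((j + 1 : ℕ) : ℝ) + 2) := by
            apply logb_mono (by positivity)
            have : (n : ℝ) ≤ ((j + 1 : ℕ) : ℝ) := by exact_mod_cast hn
            linarith
          have hn1 : (j : ℝ) - 1 ≤ n := by
            have : (j : ℝ) ≤ ((n + 1 : ℕ) : ℝ) := by exact_mod_cast h1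
            push_cast at this; linarith
          have hij'' : (i : ℝ) ≤ j := by exact_mod_cast hij'
          have h4 : g * ((j : ℝ) - 1) ≤ g * n := mul_le_mul_of_nonneg_left hn1 hg0.le
          have h5 : (1 - g') / q * i ≤ (1 - g') / q * j := mul_le_mul_of_nonneg_left hij'' hgq
          have h6 : ε * i ≤ ε * j := mul_le_mul_of_nonneg_left hij'' hε0.le
          have e2 : g' * i = g * i - ε * i := by rw [hg']; ring
          have e3 : (g' - (1 - g') / q) * j = g * j - ε * j - (1 - g') / q * j := by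
            rw [hg']; ring
          rw [e3]
          nlinarith
      · left
        have hieq : i = j + 1 := by omega
        subst hieq
        refine hHas.mono ?_
        push_cast at hΦ ⊢
        have e3 : (g' - (1 - g') / q) * j = g' * j - (1 - g') / q * j := by ring
        rw [e3]
        push_cast at hlogj
        linarith
    intro t
    induction t with
    | zero =>
      intro i y hi hij hHas hΦ ht
      rcases one i y hi hij hHas hΦ with h1 | ⟨n, y', hn1, hn2, hHas', hΦ'⟩
      · exact h1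
      · exfalso
        have h2 := hHas'.le
        have h3 : (n : ℝ) ≤ j + 1 := by exact_mod_cast hn2
        have h4 : (1 - g') * n ≤ (1 - g') * (j + 1) :=
          mul_le_mul_of_nonneg_left h3 (by linarith)
        push_cast at ht
        linarith
    | succ t ih =>
      intro i y hi hij hHas hΦ ht
      rcases one i y hi hij hHas hΦ with h1 | ⟨n, y', hn1, hn2, hHas', hΦ'⟩
      · exact h1
      · apply ih n y' hn1 hn2 hHas' (by linarith)
        push_cast at ht
        linarith
  -- conclusion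
  have hβ : 0 < g' - (1 - g') / q - γ := by rw [eq1]; linarith
  obtain ⟨j1, hj1⟩ := log_small (K + 2) 1 3 hβ
  have hγ1 : γ ≤ 1 := by
    have : 0 ≤ (1 - g) / q := div_nonneg (by linarith) hq0.le
    linarith
  refine ⟨max j1 is + 1, fun j hj => ?_⟩
  obtain ⟨j', rfl⟩ : ∃ j', j = j' + 1 := ⟨j - 1, by omega⟩
  obtain ⟨t, ht⟩ := exists_nat_ge ((1 - g') * ((j' : ℝ) + 1) + 1
    - ((g - ε / 2) * is - g' * is))
  have h1 := claim j' t is ((g - ε / 2) * is) his0 (by omega) hstart hstartΦ ht
  refine h1.mono ?_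
  have h2 := hj1 j' (by omega)
  push_cast at h2 ⊢
  rw [one_mul] at h2
  have e1 : (j' : ℝ) + 1 + 2 = j' + 3 := by ring
  rw [e1]
  linarith

end Pool.Agent.Lib_helper2.Collatz
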