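import Pool.Agent.Lib_helper2.CollatzChain

/-!
# Transfer to the Collatz map, and the final statement in terms of certificates
-/

namespace Pool.Agent.Lib_helper2.Collatz

open Finset Filter Topology

/-! ### The parent map is an iterate of the Collatz map -/

theorem par_iter (x : ℕ) : ∃ s, T^[s] x = par x := by
  by_cases h0 : x % 4 = 0
  · refine ⟨2, ?_⟩
    have h1 : T x = x / 2 := by unfold T; rw [if_pos (by omega)]
    have h2 : T (x / 2) = x / 2 / 2 := by unfold T; rw [if_pos (by omega)]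
    rw [Function.iterate_succ_apply, Function.iterate_one, h1, h2]
    unfold par; rw [if_pos h0]; omega
  · by_cases h2 : x % 4 = 2
    · refine ⟨3, ?_⟩
      have h1 : T x = x / 2 := by unfold T; rw [if_pos (by omega)]
      have h3 : T (x / 2) = 3 * (x / 2) + 1 := by unfold T; rw [if_neg (by omega)]
      have h4 : T (3 * (x / 2) + 1) = (3 * (x / 2) + 1) / 2 := by unfold T; rw [if_pos (by omega)]
      rw [Function.iterate_succ_apply, Function.iterate_succ_apply, Function.iterate_one, h1, h3,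
        h4]
      unfold par; rw [if_neg h0, if_pos h2]; omega
    · refine ⟨2, ?_⟩
      have h1 : T x = 3 * x + 1 := by unfold T; rw [if_neg (by omega)]
      have h3 : T (3 * x + 1) = (3 * x + 1) / 2 := by unfold T; rw [if_pos (by omega)]
      rw [Function.iterate_succ_apply, Function.iterate_one, h1, h3]
      unfold par; rw [if_neg h0, if_neg h2]

theorem par_iter_iter : ∀ (k x : ℕ), ∃ s, T^[s] x = par^[k] x := by
  intro k
  induction k with
  | zero => intro x; exact ⟨0, rfl⟩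
  | succ k ih =>
    intro x
    obtain ⟨s, hs⟩ := par_iter x
    obtain ⟨t, ht⟩ := ih (par x)
    exact ⟨t + s, by rw [Function.iterate_add_apply, hs, ht, Function.iterate_succ_apply]⟩

theorem par_pow : ∀ (t x : ℕ), par^[t] (4 ^ t * x) = x := by
  intro t
  induction t with
  | zero => intro x; simp
  | succ t ih =>
    intro x
    rw [Function.iterate_succ_apply, pow_succ, show 4 ^ t * 4 * x = 4 * (4 ^ t * x) by ring,
      par_four, ih]

theorem exists_root {a : ℕ} (ha : a % 3 ≠ 0) : ∃ r, r % 3 = 2 ∧ NP r ∧ ∃ s, T^[s] r = a := by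
  -- a multiple congruent to two modulo three
  obtain ⟨b, hb3, hb⟩ : ∃ b, b % 3 = 2 ∧ ∃ s, T^[s] b = a := by
    rcases (by omega : a % 3 = 2 ∨ a % 3 = 1) with h | h
    · exact ⟨a, h, 0, rfl⟩
    · refine ⟨2 * a, by omega, 1, ?_⟩
      rw [Function.iterate_one]; unfold T; rw [if_pos (by omega)]; omega
  have h4mod : ∀ t : ℕ, (4 ^ t * b) % 3 = 2 := by
    intro t
    induction t with
    | zero => simpa using hb3
    | succ t ih => rw [pow_succ, show 4 ^ t * 4 * b = 4 * (4 ^ t * b) by ring]; omega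
  have hreach : ∀ t : ℕ, ∃ s, T^[s] (4 ^ t * b) = a := by
    intro t
    obtain ⟨s, hs⟩ := hb
    obtain ⟨s', hs'⟩ := par_iter_iter t (4 ^ t * b)
    rw [par_pow] at hs'
    exact ⟨s + s', by rw [Function.iterate_add_apply, hs', hs]⟩
  by_contra hcon
  have hper : ∀ t : ℕ, ∃ k, par^[k + 1] (4 ^ t * b) = 4 ^ t * b := by
    intro t
    by_contra h
    exact hcon ⟨4 ^ t * b, h4mod t, fun k hk => h ⟨k, hk⟩, hreach t⟩
  -- the orbit of `b` is finite
  obtain ⟨d, hd⟩ := hper 0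
  rw [pow_zero, one_mul] at hd
  have hperb : ∀ n : ℕ, par^[n] b = par^[n % (d + 1)] b := by
    intro n
    have h1 : ∀ m : ℕ, par^[(d + 1) * m] b = b := by
      intro m
      induction m with
      | zero => rfl
      | succ m ih => rw [Nat.mul_succ, Function.iterate_add_apply, hd, ih]
    conv_lhs => rw [← Nat.mod_add_div n (d + 1), Function.iterate_add_apply, h1]
  set M := ∑ s ∈ range (d + 1), par^[s] b with hM
  have hbound : ∀ n : ℕ, par^[n] b ≤ M := by
    intro n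
    rw [hperb n, hM]
    exact single_le_sum (f := fun s => par^[s] b) (fun _ _ => Nat.zero_le _)
      (mem_range.mpr (Nat.mod_lt _ (by omega)))
  -- every `4 ^ t * b` lies on this orbit
  have hall : ∀ t : ℕ, 4 ^ t * b ≤ M := by
    intro t
    obtain ⟨k, hk⟩ := hper t
    have h1 : ∀ m : ℕ, par^[(k + 1) * m] (4 ^ t * b) = 4 ^ t * b := by
      intro m
      induction m with
      | zero => rfl
      | succ m ih => rw [Nat.mul_succ, Function.iterate_add_apply, hk, ih]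
    have h2 := h1 t
    have h3 : (k + 1) * t = k * t + t := by ring
    rw [h3, Function.iterate_add_apply, par_pow] at h2
    rw [← h2]
    exact hbound _
  have h1 := hall (M + 1)
  have h2 : M + 1 < 4 ^ (M + 1) := Nat.lt_pow_self (by norm_num)
  have h3 : 4 ^ (M + 1) ≤ 4 ^ (M + 1) * b := Nat.le_mul_of_pos_right _ (by omega)
  omega

/-! ### Counting -/

theorem count {r a : ℕ} (hra : ∃ s, T^[s] r = a) {γ γ' : ℝ} (hγ' : 0 ≤ γ') (hγ : γ' < γ)
    (h : ∃ j0 : ℕ, ∀ j : ℕ, j0 ≤ j → Has r j (γ * j)) :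
    ∃ x0 : ℕ, ∀ x : ℕ, x0 ≤ x →
      (x : ℝ) ^ γ' ≤ (Set.ncard {n : ℕ | 1 ≤ n ∧ n ≤ x ∧ ∃ s, T^[s] n = a} : ℝ) := by
  obtain ⟨j0, hj0⟩ := h
  have hd : 0 < γ - γ' := by linarith
  obtain ⟨j1, hj1⟩ := exists_nat_ge (2 * γ' / (γ - γ'))
  refine ⟨4 ^ (max j0 j1 + 1), fun x hx => ?_⟩
  have hx0 : x ≠ 0 := by
    have : 0 < 4 ^ (max j0 j1 + 1) := by positivity
    omega
  have hlog : max j0 j1 + 1 ≤ Nat.log 4 x := Nat.le_log_of_pow_le (by norm_num) hx
  obtain ⟨j, hj⟩ : ∃ j, Nat.log 4 x = j + 1 := ⟨Nat.log 4 x - 1, by omega⟩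
  have hlo : 4 ^ (j + 1) ≤ x := by rw [← hj]; exact Nat.pow_log_le_self 4 hx0
  have hhi : x < 4 ^ (j + 2) := by
    have := Nat.lt_pow_succ_log_self (by norm_num : 1 < 4) x
    rw [hj] at this; exact this
  obtain ⟨P, hP, hcard⟩ := hj0 j (by omega)
  have hsub : (P : Set ℕ) ⊆ {n : ℕ | 1 ≤ n ∧ n ≤ x ∧ ∃ s, T^[s] n = a} := by
    intro n hn
    have hn := mem_coe.mp hn
    have h1 := hP.hi n hn
    have h2 := hP.mod n hn
    refine ⟨by omega, by omega, ?_⟩
    obtain ⟨k, hk⟩ := hP.desc n hn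
    obtain ⟨s, hs⟩ := par_iter_iter k n
    obtain ⟨s', hs'⟩ := hra
    exact ⟨s' + s, by rw [Function.iterate_add_apply, hs, hk, hs']⟩
  have hfin : {n : ℕ | 1 ≤ n ∧ n ≤ x ∧ ∃ s, T^[s] n = a}.Finite :=
    (Set.finite_Iic x).subset fun n hn => hn.2.1
  have h1 : (P.card : ℝ) ≤ (Set.ncard {n : ℕ | 1 ≤ n ∧ n ≤ x ∧ ∃ s, T^[s] n = a} : ℝ) := by
    have := Set.ncard_le_ncard hsub hfin
    rw [Set.ncard_coe_finset] at this
    exact_mod_cast this
  refine le_trans (le_trans ?_ hcard) h1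
  have h2 : (x : ℝ) ≤ (4 : ℝ) ^ ((j : ℝ) + 2) := by
    have : (x : ℝ) ≤ (4 : ℝ) ^ (j + 2) := by exact_mod_cast hhi.le
    rw [← Real.rpow_natCast] at this
    push_cast at this
    exact this
  calc (x : ℝ) ^ γ' ≤ ((4 : ℝ) ^ ((j : ℝ) + 2)) ^ γ' :=
        Real.rpow_le_rpow (Nat.cast_nonneg _) h2 hγ'
    _ = (4 : ℝ) ^ (((j : ℝ) + 2) * γ') := by rw [← Real.rpow_mul (by norm_num)]
    _ ≤ (4 : ℝ) ^ (γ * j) := by
        apply Real.rpow_le_rpow_of_exponent_le (by norm_num)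
        have h3 : (j1 : ℝ) ≤ j := by
          have : j1 ≤ j := by omega
          exact_mod_cast this
        have h4 := (div_le_iff₀ hd).mp (hj1.trans h3)
        nlinarith

/-! ### Certificates -/

theorem CertOK.cond {K : Cert} {c e : ℕ → ℕ} (H : CertOK K c e) {w n : ℕ} (hn : 0 < n)
    (h : 3 ^ w * K.P2 ^ (K.q * n) < K.P1 ^ (K.q * n)) :
    (w : ℝ) / n < K.q * Real.logb 3 K.p := by
  have hP20 : (0 : ℝ) < K.P2 := by exact_mod_cast H.hP2pos
  have hP12 : (K.P2 : ℝ) < K.P1 := by exact_mod_cast H.hP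
  have hP10 : (0 : ℝ) < K.P1 := hP20.trans hP12
  have hn0 : (0 : ℝ) < n := by exact_mod_cast hn
  have h' : (3 : ℝ) ^ w * K.P2 ^ (K.q * n) < K.P1 ^ (K.q * n) := by exact_mod_cast h
  have hl3 : (0 : ℝ) < Real.log 3 := Real.log_pos (by norm_num)
  have h1 := Real.log_lt_log (by positivity) h'
  rw [Real.log_mul (by positivity) (by positivity), Real.log_pow, Real.log_pow,
    Real.log_pow] at h1
  push_cast at h1
  rw [Cert.p, Real.logb, Real.log_div hP10.ne' hP20.ne', div_lt_iff₀ hn0, ← mul_div_assoc,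
    div_mul_eq_mul_div, lt_div_iff₀ hl3]
  linarith

theorem CertOK.chain {K : Cert} {c e : ℕ → ℕ} (H : CertOK K c e) {r : ℕ} (hr : NP r) {a : ℝ}
    (ha : 0 < a) (hδ : 1 - a < K.q * Real.logb 3 K.p) (h : ∀ s < a, IO r s) :
    ∀ s < K.g, IO r s :=
  IO.chain (RC.ofCert H) hr ha hδ h

/-- The final statement in terms of one last certificate. -/
theorem CertOK.final {K : Cert} {c e : ℕ → ℕ} (H : CertOK K c e)
    (hδ : 1 - K.g < K.q * Real.logb 3 K.p)
    (h : ∀ r, r % 3 = 2 → NP r → ∀ s < K.g, IO r s) {γ : ℝ} (hγ0 : 0 ≤ γ)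
    (hγ : γ < K.g - (1 - K.g) / K.q) {a : ℕ} (ha : a % 3 ≠ 0) :
    ∃ x0 : ℕ, ∀ x : ℕ, x0 ≤ x →
      (x : ℝ) ^ γ ≤ (Set.ncard {n : ℕ | 1 ≤ n ∧ n ≤ x ∧ ∃ s, T^[s] n = a} : ℝ) := by
  obtain ⟨r, hr3, hr, hra⟩ := exists_root ha
  obtain ⟨γ1, h1, h2⟩ := exists_between hγ
  exact count hra hγ0 h1 (all_bands (RC.ofCert H) hr hδ (h r hr3 hr) h2)

end Pool.Agent.Lib_helper2.Collatz
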