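import Pool.Agent.Lib_helper2.CollatzTree

/-!
# Negative moments of the weighted number of descendants
-/

namespace Pool.Agent.Lib_helper2.Collatz

open Finset

/-- A certificate with real weights. -/
structure RC (g p A B C : ℝ) (k q : ℕ) (c e : ℕ → ℝ) : Prop where
  hk : 2 ≤ k
  hq : 1 ≤ q
  hg0 : 0 < g
  hg1 : g < 1
  hp : 1 < p
  hA0 : 0 < A
  hB0 : 0 < B
  hC0 : 0 < C
  cper : ∀ a, c (a + 3 ^ k) = c a
  cpos : ∀ a, a % 3 = 2 → 0 < c a
  epos : ∀ b, b % 3 = 2 → 0 < e b
  h5 : ∀ a, a % 9 = 5 → c a ≤ A * c (4 * a)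
  h2 : ∀ a, a % 9 = 2 → c a ≤ A * c (4 * a) + B * e ((4 * a - 2) / 3)
  h8 : ∀ a, a % 9 = 8 → c a ≤ A * c (4 * a) + C * e ((2 * a - 1) / 3)
  hpow : ∀ b, b % 3 = 2 → ((c b)⁻¹) ^ q + ((c (b + 3 ^ (k - 1)))⁻¹) ^ q
    + ((c (b + 2 * 3 ^ (k - 1)))⁻¹) ^ q ≤ 3 * ((e b)⁻¹) ^ q
  hA : A ≤ (4 : ℝ) ^ (-g)
  hB : B ≤ (3 / 4 : ℝ) ^ g * p⁻¹
  hC : C ≤ (3 / 2 : ℝ) ^ g * p⁻¹

/-- The weighted number of descendants in the truncated tree. -/
noncomputable def G (c : ℕ → ℝ) (A B C : ℝ) (stop : ℕ → ℕ → Bool) : ℕ → ℕ → ℕ → ℕ → ℝ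
  | 0, _, _, a => c a
  | l + 1, E, u, a => if stop E u = true then c a else
      A * G c A B C stop l (E + 2) u (4 * a)
        + (if a % 9 = 2 then B * G c A B C stop l (E + 2) (u + 1) ((4 * a - 2) / 3)
           else if a % 9 = 8 then C * G c A B C stop l (E + 1) (u + 1) ((2 * a - 1) / 3) else 0)

variable {g p A B C : ℝ} {k q : ℕ} {c e : ℕ → ℝ} {stop : ℕ → ℕ → Bool}

theorem G_zero (E u a : ℕ) : G c A B C stop 0 E u a = c a := rfl

theorem G_succ (l E u a : ℕ) : G c A B C stop (l + 1) E u a = if stop E u = true then c a else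
      A * G c A B C stop l (E + 2) u (4 * a)
        + (if a % 9 = 2 then B * G c A B C stop l (E + 2) (u + 1) ((4 * a - 2) / 3)
           else if a % 9 = 8 then C * G c A B C stop l (E + 1) (u + 1) ((2 * a - 1) / 3) else 0) :=
  rfl

theorem G_pos (H : RC g p A B C k q c e) : ∀ (l E u a : ℕ), a % 3 = 2 →
    0 < G c A B C stop l E u a := by
  intro l
  induction l with
  | zero => intro E u a ha; exact H.cpos a ha
  | succ l ih =>
    intro E u a ha
    rw [G_succ]
    have h1 := mul_pos H.hA0 (ih (E + 2) u (4 * a) (by omega))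
    split_ifs with hs h2 h8
    · exact H.cpos a ha
    · exact add_pos h1 (mul_pos H.hB0 (ih _ _ _ (mod3_two h2)))
    · exact add_pos h1 (mul_pos H.hC0 (ih _ _ _ (mod3_eight h8)))
    · rw [add_zero]; exact h1

/-- Expansion of `G` into a sum over actual descendants. -/
theorem G_expand (H : RC g p A B C k q c e) : ∀ (l E u a : ℕ), a % 3 = 2 → NP a →
    G c A B C stop l E u a * (a : ℝ) ^ (-g) * (p⁻¹) ^ u
      ≤ ∑ t ∈ Term stop l E u a, c t.1 * (t.1 : ℝ) ^ (-g) * (p⁻¹) ^ t.2.2 := by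
  have hp0 : 0 < p := lt_trans one_pos H.hp
  have hpi : 0 < p⁻¹ := inv_pos.mpr hp0
  intro l
  induction l with
  | zero => intro E u a _ _; simp [G_zero, Term_zero]
  | succ l ih =>
    intro E u a ha hNP
    by_cases hs : stop E u = true
    · rw [sum_Term_stop hs, G_succ, if_pos hs]
    · have hs' : stop E u = false := by simpa using hs
      rw [sum_Term_succ hNP hs', G_succ, if_neg hs, add_mul, add_mul]
      have ha0 : (0 : ℝ) < a := by
        have : 0 < a := by omega
        exact_mod_cast this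
      apply add_le_add
      · have i4 := ih (E + 2) u (4 * a) (by omega) (hNP.child (par_four a))
        refine le_trans ?_ i4
        have hG := (G_pos (stop := stop) H l (E + 2) u (4 * a) (by omega)).le
        have e1 : ((4 * a : ℕ) : ℝ) ^ (-g) = (4 : ℝ) ^ (-g) * (a : ℝ) ^ (-g) := by
          push_cast; exact Real.mul_rpow (by norm_num) ha0.le
        rw [e1]
        apply mul_le_mul_of_nonneg_right _ (by positivity)
        calc A * G c A B C stop l (E + 2) u (4 * a) * (a : ℝ) ^ (-g)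
            = G c A B C stop l (E + 2) u (4 * a) * (A * (a : ℝ) ^ (-g)) := by ring
          _ ≤ G c A B C stop l (E + 2) u (4 * a) * ((4 : ℝ) ^ (-g) * (a : ℝ) ^ (-g)) := by
              apply mul_le_mul_of_nonneg_left _ hG
              exact mul_le_mul_of_nonneg_right H.hA (by positivity)
      · -- digit moves
        have key : ∀ (W s : ℝ) (b E' : ℕ), 0 < W → 0 < s → W ≤ s⁻¹ ^ g * p⁻¹ → b % 3 = 2 →
            NP b → (b : ℝ) ≤ s * a →
            W * G c A B C stop l E' (u + 1) b * (a : ℝ) ^ (-g) * (p⁻¹) ^ u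
              ≤ ∑ t ∈ Term stop l E' (u + 1) b, c t.1 * (t.1 : ℝ) ^ (-g) * (p⁻¹) ^ t.2.2 := by
          intro W s b E' hW hs0 hWs hb hNPb hbs
          refine le_trans ?_ (ih E' (u + 1) b hb hNPb)
          have hG := (G_pos (stop := stop) H l E' (u + 1) b hb).le
          have hb0 : (0 : ℝ) < b := by
            have : 0 < b := by omega
            exact_mod_cast this
          have e1 : s⁻¹ ^ g * (a : ℝ) ^ (-g) ≤ (b : ℝ) ^ (-g) := by
            rw [Real.inv_rpow hs0.le, ← Real.rpow_neg hs0.le, ← Real.mul_rpow hs0.le ha0.le]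
            exact Real.rpow_le_rpow_of_nonpos hb0 hbs (by linarith [H.hg0])
          rw [pow_succ]
          calc W * G c A B C stop l E' (u + 1) b * (a : ℝ) ^ (-g) * (p⁻¹) ^ u
              = G c A B C stop l E' (u + 1) b * (W * (a : ℝ) ^ (-g)) * (p⁻¹) ^ u := by ring
            _ ≤ G c A B C stop l E' (u + 1) b * (s⁻¹ ^ g * p⁻¹ * (a : ℝ) ^ (-g)) * (p⁻¹) ^ u := by
                apply mul_le_mul_of_nonneg_right _ (by positivity)
                apply mul_le_mul_of_nonneg_left _ hG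
                exact mul_le_mul_of_nonneg_right hWs (by positivity)
            _ = G c A B C stop l E' (u + 1) b * (s⁻¹ ^ g * (a : ℝ) ^ (-g)) * ((p⁻¹) ^ u * p⁻¹) := by
                ring
            _ ≤ G c A B C stop l E' (u + 1) b * (b : ℝ) ^ (-g) * ((p⁻¹) ^ u * p⁻¹) := by
                apply mul_le_mul_of_nonneg_right _ (by positivity)
                exact mul_le_mul_of_nonneg_left e1 hG
        split_ifs with h2 h8
        · refine key B (4 / 3) _ _ H.hB0 (by norm_num) ?_ (mod3_two h2)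
            (hNP.child (par_two h2)) ?_
          · have := H.hB; norm_num at this ⊢; exact this
          · have h3 : 3 * ((4 * a - 2) / 3) ≤ 4 * a := by omega
            have h3' : (3 : ℝ) * (((4 * a - 2) / 3 : ℕ) : ℝ) ≤ 4 * a := by exact_mod_cast h3
            linarith
        · refine key C (2 / 3) _ _ H.hC0 (by norm_num) ?_ (mod3_eight h8)
            (hNP.child (par_eight h8)) ?_
          · have := H.hC; norm_num at this ⊢; exact this
          · have h3 : 3 * ((2 * a - 1) / 3) ≤ 2 * a := by omega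
            have h3' : (3 : ℝ) * (((2 * a - 1) / 3 : ℕ) : ℝ) ≤ 2 * a := by exact_mod_cast h3
            linarith
        · simp

/-! ### Periodicity -/

theorem periodic_mul {f : ℕ → ℝ} {N : ℕ} (h : ∀ a, f (a + N) = f a) :
    ∀ j a, f (a + N * j) = f a := by
  intro j
  induction j with
  | zero => intro a; simp
  | succ j ih => intro a; rw [Nat.mul_succ, ← Nat.add_assoc, h, ih]

theorem periodic_mod {f : ℕ → ℝ} {N : ℕ} (h : ∀ a, f (a + N) = f a) (a : ℕ) :
    f (a % N) = f a := by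
  conv_rhs => rw [← Nat.mod_add_div a N]
  rw [periodic_mul h]

theorem G_per (H : RC g p A B C k q c e) (m : ℕ) (hstop : ∀ E u, m ≤ u → stop E u = true) :
    ∀ (l E u a : ℕ), u ≤ m →
      G c A B C stop l E u (a + 3 ^ (m - u + k)) = G c A B C stop l E u a := by
  have hc : ∀ n a, c (a + 3 ^ (n + k)) = c a := by
    intro n a
    rw [pow_add, mul_comm]
    exact periodic_mul H.cper _ _
  intro l
  induction l with
  | zero => intro E u a _; rw [G_zero, G_zero, hc]
  | succ l ih =>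
    intro E u a hu
    rw [G_succ, G_succ]
    by_cases hs : stop E u = true
    · rw [if_pos hs, if_pos hs, hc]
    · rw [if_neg hs, if_neg hs]
      have hum : u < m := by
        by_contra h
        exact hs (hstop E u (by omega))
      obtain ⟨n, hn⟩ : ∃ n, m - u = n + 1 := ⟨m - u - 1, by omega⟩
      have hn' : m - (u + 1) = n := by omega
      have hN : (3 : ℕ) ^ (m - u + k) = 3 * 3 ^ (n + k) := by
        rw [hn]; ring
      have h9 : 9 ∣ 3 ^ (m - u + k) := by
        obtain ⟨k', hk'⟩ : ∃ k', k = k' + 2 := ⟨k - 2, by have := H.hk; omega⟩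
        rw [hk', show m - u + (k' + 2) = (m - u + k') + 2 by ring, pow_add]
        exact Dvd.intro_left _ rfl
      have e4 : 4 * (a + 3 ^ (m - u + k)) = 4 * a + 3 ^ (m - u + k) * 4 := by ring
      have i4 : G c A B C stop l (E + 2) u (4 * (a + 3 ^ (m - u + k)))
          = G c A B C stop l (E + 2) u (4 * a) := by
        rw [e4]
        exact periodic_mul (fun x => ih (E + 2) u x hu) 4 (4 * a)
      rw [i4]
      congr 1
      have hmod : (a + 3 ^ (m - u + k)) % 9 = a % 9 := by
        obtain ⟨d, hd⟩ := h9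
        rw [hd]; omega
      rw [hmod]
      have ih' : ∀ E' x, G c A B C stop l E' (u + 1) (x + 3 ^ (n + k))
          = G c A B C stop l E' (u + 1) x := by
        intro E' x
        have := ih E' (u + 1) x (by omega)
        rw [hn'] at this
        exact this
      split_ifs with h2 h8
      · have eb : (4 * (a + 3 ^ (m - u + k)) - 2) / 3 = (4 * a - 2) / 3 + 3 ^ (n + k) * 4 := by
          rw [hN]
          generalize 3 ^ (n + k) = y
          omega
        rw [eb, periodic_mul (ih' (E + 2)) 4]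
      · have eb : (2 * (a + 3 ^ (m - u + k)) - 1) / 3 = (2 * a - 1) / 3 + 3 ^ (n + k) * 2 := by
          rw [hN]
          generalize 3 ^ (n + k) = y
          omega
        rw [eb, periodic_mul (ih' (E + 1)) 2]
      · rfl

/-! ### Sums over complete residue systems -/

theorem sum_unit {h : ℕ → ℝ} {N : ℕ} (hN : 0 < N) (hper : ∀ a, h (a + N) = h a) (w : ℕ)
    (hw : Nat.Coprime w N) : ∑ t ∈ range N, h (w * t) = ∑ t ∈ range N, h t := by
  have h1 : ∑ t ∈ range N, h (w * t) = ∑ t ∈ range N, h ((w * t) % N) :=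
    sum_congr rfl fun t _ => (periodic_mod hper _).symm
  rw [h1]
  have hinj : Set.InjOn (fun t => (w * t) % N) (range N : Set ℕ) := by
    intro x hx y hy hxy
    simp only [coe_range, Set.mem_Iio] at hx hy
    have : w * x ≡ w * y [MOD N] := hxy
    have := Nat.ModEq.cancel_left_of_coprime (by rw [Nat.gcd_comm]; exact hw) this
    exact Nat.ModEq.eq_of_lt_of_lt this hx hy
  have himg : (range N).image (fun t => (w * t) % N) = range N := by
    apply eq_of_subset_of_card_le
    · intro x hx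
      obtain ⟨t, _, rfl⟩ := mem_image.mp hx
      exact mem_range.mpr (Nat.mod_lt _ hN)
    · rw [card_image_of_injOn hinj]
  conv_rhs => rw [← himg]
  rw [sum_image hinj]

theorem sum_three (h : ℕ → ℝ) (N : ℕ) : ∑ t ∈ range (3 * N), h t
    = ∑ t ∈ range N, h (3 * t) + ∑ t ∈ range N, h (3 * t + 1) + ∑ t ∈ range N, h (3 * t + 2) := by
  induction N with
  | zero => simp
  | succ N ih =>
    rw [show 3 * (N + 1) = 3 * N + 1 + 1 + 1 by ring, sum_range_succ, sum_range_succ,
      sum_range_succ, ih, sum_range_succ _ N, sum_range_succ _ N, sum_range_succ _ N]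
    ring

/-- The tangent inequality behind the reverse Minkowski inequality. -/
theorem inv_pow_add_le {x y α β : ℝ} (hx : 0 < x) (hy : 0 < y) (hα : 0 < α) (hβ : 0 < β) (q : ℕ) :
    ((x + y)⁻¹) ^ q ≤ ((α + β)⁻¹) ^ (q + 1)
      * (α ^ (q + 1) * (x⁻¹) ^ q + β ^ (q + 1) * (y⁻¹) ^ q) := by
  have hconv := convexOn_zpow (𝕜 := ℝ) (-(q : ℤ))
  have hab : 0 < α + β := add_pos hα hβ
  have hx' : x / α ∈ Set.Ioi (0 : ℝ) := Set.mem_Ioi.mpr (div_pos hx hα)
  have hy' : y / β ∈ Set.Ioi (0 : ℝ) := Set.mem_Ioi.mpr (div_pos hy hβ)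
  have ha' : 0 ≤ α / (α + β) := div_nonneg hα.le hab.le
  have hb' : 0 ≤ β / (α + β) := div_nonneg hβ.le hab.le
  have hs' : α / (α + β) + β / (α + β) = 1 := by field_simp
  have h := hconv.2 hx' hy' ha' hb' hs'
  simp only [smul_eq_mul] at h
  have e1 : α / (α + β) * (x / α) + β / (α + β) * (y / β) = (x + y) / (α + β) := by
    field_simp
  rw [e1] at h
  simp only [zpow_neg, zpow_natCast] at h
  have e2 : (((x + y) / (α + β)) ^ q)⁻¹ = ((x + y)⁻¹) ^ q * (α + β) ^ q := by
    rw [div_pow, inv_div, inv_pow]; ring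
  have e3 : ((x / α) ^ q)⁻¹ = α ^ q * (x⁻¹) ^ q := by
    rw [div_pow, inv_div, inv_pow]; ring
  have e4 : ((y / β) ^ q)⁻¹ = β ^ q * (y⁻¹) ^ q := by
    rw [div_pow, inv_div, inv_pow]; ring
  rw [e2, e3, e4] at h
  have h5 : ((x + y)⁻¹) ^ q * (α + β) ^ q * ((α + β)⁻¹) ^ q = ((x + y)⁻¹) ^ q := by
    rw [mul_assoc, ← mul_pow, mul_inv_cancel₀ hab.ne', one_pow, mul_one]
  rw [← h5]
  calc ((x + y)⁻¹) ^ q * (α + β) ^ q * ((α + β)⁻¹) ^ q
      ≤ (α / (α + β) * (α ^ q * (x⁻¹) ^ q) + β / (α + β) * (β ^ q * (y⁻¹) ^ q))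
          * ((α + β)⁻¹) ^ q := mul_le_mul_of_nonneg_right h (by positivity)
    _ = ((α + β)⁻¹) ^ (q + 1) * (α ^ (q + 1) * (x⁻¹) ^ q + β ^ (q + 1) * (y⁻¹) ^ q) := by
        rw [div_eq_mul_inv, div_eq_mul_inv]; ring

end Pool.Agent.Lib_helper2.Collatz
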