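import Pool.Agent.Lib_helper2.CollatzMoment

/-!
# The moment bound and the number of bad residues
-/

namespace Pool.Agent.Lib_helper2.Collatz

open Finset

variable {g p A B C : ℝ} {k q : ℕ} {c e : ℕ → ℝ} {stop : ℕ → ℕ → Bool}

/-- The moment bound: the average of `G^(-q)` over the lifts of a residue class modulo `3^k`. -/
theorem moment (H : RC g p A B C k q c e) (m : ℕ) (hstop : ∀ E u, m ≤ u → stop E u = true) :
    ∀ (l E u a0 : ℕ), u ≤ m → a0 % 3 = 2 →
      ∑ t ∈ range (3 ^ (m - u)), ((G c A B C stop l E u (a0 + 3 ^ k * t))⁻¹) ^ q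
        ≤ 3 ^ (m - u) * ((c a0)⁻¹) ^ q := by
  have hcj : ∀ t a, c (a + 3 ^ k * t) = c a := fun t a => periodic_mul H.cper t a
  have hk := H.hk
  have hterm : ∀ (n : ℕ) (a0 : ℕ),
      ∑ t ∈ range (3 ^ n), ((c (a0 + 3 ^ k * t))⁻¹) ^ q ≤ 3 ^ n * ((c a0)⁻¹) ^ q := by
    intro n a0
    rw [sum_congr rfl fun t _ => by rw [hcj t a0]]
    rw [sum_const, card_range, nsmul_eq_mul]
    push_cast
    exact le_refl _
  intro l
  induction l with
  | zero =>
    intro E u a0 _ _
    simp only [G_zero]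
    exact hterm _ _
  | succ l ih =>
    intro E u a0 hu ha0
    by_cases hs : stop E u = true
    · rw [sum_congr rfl fun t _ => by rw [G_succ, if_pos hs]]
      exact hterm _ _
    have hum : u < m := by
      by_contra h
      exact hs (hstop E u (by omega))
    obtain ⟨n, hn⟩ : ∃ n, m - u = n + 1 := ⟨m - u - 1, by omega⟩
    have hn' : m - (u + 1) = n := by omega
    have h9 : ∃ d, 3 ^ k = 9 * d := by
      obtain ⟨k', hk'⟩ : ∃ k', k = k' + 2 := ⟨k - 2, by omega⟩
      exact ⟨3 ^ k', by rw [hk']; ring⟩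
    have h3k : 3 ^ k = 3 * 3 ^ (k - 1) := by
      rw [← pow_succ']; congr 1; omega
    have hmod : ∀ t, (a0 + 3 ^ k * t) % 9 = a0 % 9 := by
      obtain ⟨d, hd⟩ := h9
      intro t; rw [hd, mul_assoc]; omega
    have hper1 : ∀ E' x, G c A B C stop l E' u (x + 3 ^ (n + 1 + k)) = G c A B C stop l E' u x := by
      intro E' x
      have := G_per H m hstop l E' u x hu
      rw [hn] at this; exact this
    have hper2 : ∀ E' x, G c A B C stop l E' (u + 1) (x + 3 ^ (n + k))
        = G c A B C stop l E' (u + 1) x := by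
      intro E' x
      have := G_per H m hstop l E' (u + 1) x (by omega)
      rw [hn'] at this; exact this
    -- the part coming from multiplication by four
    have part4 : ∑ t ∈ range (3 ^ (m - u)),
        ((A * G c A B C stop l (E + 2) u (4 * (a0 + 3 ^ k * t)))⁻¹) ^ q
          ≤ 3 ^ (m - u) * ((A * c (4 * a0))⁻¹) ^ q := by
      have e1 : ∑ t ∈ range (3 ^ (m - u)),
          ((A * G c A B C stop l (E + 2) u (4 * (a0 + 3 ^ k * t)))⁻¹) ^ q
          = (A⁻¹) ^ q * ∑ t ∈ range (3 ^ (m - u)),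
            ((G c A B C stop l (E + 2) u (4 * a0 + 3 ^ k * (4 * t)))⁻¹) ^ q := by
        rw [mul_sum]
        refine sum_congr rfl fun t _ => ?_
        rw [mul_inv, mul_pow, show 4 * (a0 + 3 ^ k * t) = 4 * a0 + 3 ^ k * (4 * t) by ring]
      have e2 := sum_unit (h := fun t => ((G c A B C stop l (E + 2) u (4 * a0 + 3 ^ k * t))⁻¹) ^ q)
        (N := 3 ^ (m - u)) (by positivity) (fun x => by
          rw [hn, show 4 * a0 + 3 ^ k * (x + 3 ^ (n + 1)) = 4 * a0 + 3 ^ k * x + 3 ^ (n + 1 + k) by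
            ring, hper1]) 4 (Nat.Coprime.pow_right _ (by norm_num))
      rw [e1, e2, mul_inv, mul_pow]
      have := ih (E + 2) u (4 * a0) hu (by omega)
      calc (A⁻¹) ^ q * ∑ t ∈ range (3 ^ (m - u)),
            ((G c A B C stop l (E + 2) u (4 * a0 + 3 ^ k * t))⁻¹) ^ q
          ≤ (A⁻¹) ^ q * (3 ^ (m - u) * ((c (4 * a0))⁻¹) ^ q) :=
            mul_le_mul_of_nonneg_left this (pow_nonneg (inv_nonneg.mpr H.hA0.le) _)
        _ = 3 ^ (m - u) * ((A⁻¹) ^ q * ((c (4 * a0))⁻¹) ^ q) := by ring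
    -- the part coming from a digit move
    have partd : ∀ (W : ℝ) (E' b0 w : ℕ), 0 < W → b0 % 3 = 2 → Nat.Coprime w 3 →
        ∑ t ∈ range (3 ^ (m - u)),
          ((W * G c A B C stop l E' (u + 1) (b0 + 3 ^ (k - 1) * (w * t)))⁻¹) ^ q
          ≤ 3 ^ (m - u) * ((W * e b0)⁻¹) ^ q := by
      intro W E' b0 w hW hb0 hw
      have e1 : ∑ t ∈ range (3 ^ (m - u)),
          ((W * G c A B C stop l E' (u + 1) (b0 + 3 ^ (k - 1) * (w * t)))⁻¹) ^ q
          = (W⁻¹) ^ q * ∑ t ∈ range (3 ^ (m - u)),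
            ((G c A B C stop l E' (u + 1) (b0 + 3 ^ (k - 1) * (w * t)))⁻¹) ^ q := by
        rw [mul_sum]
        refine sum_congr rfl fun t _ => ?_
        rw [mul_inv, mul_pow]
      have e2 := sum_unit
        (h := fun t => ((G c A B C stop l E' (u + 1) (b0 + 3 ^ (k - 1) * t))⁻¹) ^ q)
        (N := 3 ^ (m - u)) (by positivity) (fun x => by
          rw [hn, show b0 + 3 ^ (k - 1) * (x + 3 ^ (n + 1)) = b0 + 3 ^ (k - 1) * x + 3 ^ (n + k) by
            rw [show n + k = (k - 1) + (n + 1) by omega, pow_add 3 (k - 1)]; ring, hper2]) w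
            (Nat.Coprime.pow_right _ hw)
      rw [e1, e2, hn, pow_succ 3 n, mul_comm (3 ^ n) 3, sum_three]
      have hj : ∀ j, j < 3 → ∑ t ∈ range (3 ^ n),
          ((G c A B C stop l E' (u + 1) (b0 + 3 ^ (k - 1) * (3 * t + j)))⁻¹) ^ q
          ≤ 3 ^ n * ((c (b0 + j * 3 ^ (k - 1)))⁻¹) ^ q := by
        intro j _
        have := ih E' (u + 1) (b0 + j * 3 ^ (k - 1)) (by omega) (by
          obtain ⟨d, hd⟩ : ∃ d, 3 ^ (k - 1) = 3 * d :=
            ⟨3 ^ (k - 2), by rw [← pow_succ']; congr 1; omega⟩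
          rw [hd, show b0 + j * (3 * d) = b0 + 3 * (j * d) by ring]; omega)
        rw [hn'] at this
        refine le_trans (le_of_eq (sum_congr rfl fun t _ => ?_)) this
        rw [h3k, show b0 + 3 ^ (k - 1) * (3 * t + j)
          = b0 + j * 3 ^ (k - 1) + 3 * 3 ^ (k - 1) * t by ring]
      have hj0 := hj 0 (by norm_num)
      have hj1 := hj 1 (by norm_num)
      have hj2 := hj 2 (by norm_num)
      simp only [add_zero, zero_mul, one_mul] at hj0 hj1 hj2
      have hpw := H.hpow b0 hb0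
      have hW' : 0 ≤ (W⁻¹) ^ q := pow_nonneg (inv_nonneg.mpr hW.le) _
      have h3n : (0 : ℝ) ≤ 3 ^ n := by positivity
      calc (W⁻¹) ^ q * (∑ t ∈ range (3 ^ n),
              ((G c A B C stop l E' (u + 1) (b0 + 3 ^ (k - 1) * (3 * t)))⁻¹) ^ q
            + ∑ t ∈ range (3 ^ n),
              ((G c A B C stop l E' (u + 1) (b0 + 3 ^ (k - 1) * (3 * t + 1)))⁻¹) ^ q
            + ∑ t ∈ range (3 ^ n),
              ((G c A B C stop l E' (u + 1) (b0 + 3 ^ (k - 1) * (3 * t + 2)))⁻¹) ^ q)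
          ≤ (W⁻¹) ^ q * (3 ^ n * ((c b0)⁻¹) ^ q + 3 ^ n * ((c (b0 + 3 ^ (k - 1)))⁻¹) ^ q
            + 3 ^ n * ((c (b0 + 2 * 3 ^ (k - 1)))⁻¹) ^ q) :=
            mul_le_mul_of_nonneg_left (by linarith) hW'
        _ = (W⁻¹) ^ q * (3 ^ n * (((c b0)⁻¹) ^ q + ((c (b0 + 3 ^ (k - 1)))⁻¹) ^ q
            + ((c (b0 + 2 * 3 ^ (k - 1)))⁻¹) ^ q)) := by ring
        _ ≤ (W⁻¹) ^ q * (3 ^ n * (3 * ((e b0)⁻¹) ^ q)) :=
            mul_le_mul_of_nonneg_left (mul_le_mul_of_nonneg_left hpw h3n) hW'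
        _ = 3 * 3 ^ n * ((W * e b0)⁻¹) ^ q := by rw [mul_inv, mul_pow]; ring
        _ = 3 ^ (n + 1) * ((W * e b0)⁻¹) ^ q := by rw [pow_succ]; ring
    -- combination of the two parts
    have comb : ∀ (W : ℝ) (E' b0 w : ℕ) (f : ℕ → ℕ), 0 < W → b0 % 3 = 2 → Nat.Coprime w 3 →
        (∀ t, f t = b0 + 3 ^ (k - 1) * (w * t)) → (∀ t, (f t) % 3 = 2) →
        c a0 ≤ A * c (4 * a0) + W * e b0 →
        ∑ t ∈ range (3 ^ (m - u)),
          ((A * G c A B C stop l (E + 2) u (4 * (a0 + 3 ^ k * t))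
            + W * G c A B C stop l E' (u + 1) (f t))⁻¹) ^ q ≤ 3 ^ (m - u) * ((c a0)⁻¹) ^ q := by
      intro W E' b0 w f hW hb0 hw hf hf3 hc
      have hα : 0 < A * c (4 * a0) := mul_pos H.hA0 (H.cpos _ (by omega))
      have hβ : 0 < W * e b0 := mul_pos hW (H.epos _ hb0)
      set α := A * c (4 * a0) with hαd
      set β := W * e b0 with hβd
      have hpt : ∀ t ∈ range (3 ^ (m - u)),
          ((A * G c A B C stop l (E + 2) u (4 * (a0 + 3 ^ k * t))
            + W * G c A B C stop l E' (u + 1) (f t))⁻¹) ^ q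
          ≤ ((α + β)⁻¹) ^ (q + 1) * (α ^ (q + 1)
              * ((A * G c A B C stop l (E + 2) u (4 * (a0 + 3 ^ k * t)))⁻¹) ^ q
            + β ^ (q + 1) * ((W * G c A B C stop l E' (u + 1) (f t))⁻¹) ^ q) := by
        intro t _
        have ht3 : (4 * (a0 + 3 ^ k * t)) % 3 = 2 := by
          have := hmod t; omega
        exact inv_pow_add_le (mul_pos H.hA0 (G_pos H _ _ _ _ ht3))
          (mul_pos hW (G_pos H _ _ _ _ (hf3 t))) hα hβ q
      refine (sum_le_sum hpt).trans ?_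
      rw [← mul_sum, sum_add_distrib, ← mul_sum, ← mul_sum]
      have p2 := partd W E' b0 w hW hb0 hw
      rw [sum_congr rfl fun t _ => by rw [← hf t]] at p2
      have hab : 0 < α + β := add_pos hα hβ
      have h3 : (0 : ℝ) ≤ 3 ^ (m - u) := by positivity
      calc ((α + β)⁻¹) ^ (q + 1) * (α ^ (q + 1) * ∑ t ∈ range (3 ^ (m - u)),
              ((A * G c A B C stop l (E + 2) u (4 * (a0 + 3 ^ k * t)))⁻¹) ^ q
            + β ^ (q + 1) * ∑ t ∈ range (3 ^ (m - u)),
              ((W * G c A B C stop l E' (u + 1) (f t))⁻¹) ^ q)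
          ≤ ((α + β)⁻¹) ^ (q + 1) * (α ^ (q + 1) * (3 ^ (m - u) * (α⁻¹) ^ q)
            + β ^ (q + 1) * (3 ^ (m - u) * (β⁻¹) ^ q)) := by
            apply mul_le_mul_of_nonneg_left _ (by positivity)
            exact add_le_add (mul_le_mul_of_nonneg_left part4 (by positivity))
              (mul_le_mul_of_nonneg_left p2 (by positivity))
        _ = 3 ^ (m - u) * ((α + β)⁻¹) ^ q := by
            have e1 : α ^ (q + 1) * (3 ^ (m - u) * (α⁻¹) ^ q) = 3 ^ (m - u) * α := by
              rw [pow_succ, inv_pow]; field_simp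
            have e2 : β ^ (q + 1) * (3 ^ (m - u) * (β⁻¹) ^ q) = 3 ^ (m - u) * β := by
              rw [pow_succ, inv_pow]; field_simp
            rw [e1, e2, ← mul_add, pow_succ]
            field_simp
        _ ≤ 3 ^ (m - u) * ((c a0)⁻¹) ^ q := by
            apply mul_le_mul_of_nonneg_left _ h3
            apply pow_le_pow_left₀ (inv_nonneg.mpr hab.le)
            exact inv_anti₀ (H.cpos a0 ha0) hc
    -- the three cases
    rcases (by omega : a0 % 9 = 2 ∨ a0 % 9 = 5 ∨ a0 % 9 = 8) with h | h | h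
    · have hb0 := mod3_two h
      have hfeq : ∀ t, (4 * (a0 + 3 ^ k * t) - 2) / 3
          = (4 * a0 - 2) / 3 + 3 ^ (k - 1) * (4 * t) := by
        intro t
        rw [h3k]
        have : 4 * (a0 + 3 * 3 ^ (k - 1) * t) - 2 = (4 * a0 - 2) + 3 * (3 ^ (k - 1) * (4 * t)) := by
          have : 4 * (a0 + 3 * 3 ^ (k - 1) * t) = 4 * a0 + 3 * (3 ^ (k - 1) * (4 * t)) := by ring
          omega
        rw [this, Nat.add_mul_div_left _ _ (by norm_num)]
      refine le_trans (le_of_eq (sum_congr rfl fun t _ => ?_))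
        (comb B (E + 2) ((4 * a0 - 2) / 3) 4 (fun t => (4 * (a0 + 3 ^ k * t) - 2) / 3) H.hB0 hb0
          (by norm_num) hfeq (fun t => mod3_two (by rw [hmod]; exact h)) (H.h2 a0 h))
      rw [G_succ, if_neg hs, if_pos (by rw [hmod]; exact h)]
    · have hc5 := H.h5 a0 h
      have heq : ∀ t, G c A B C stop (l + 1) E u (a0 + 3 ^ k * t)
          = A * G c A B C stop l (E + 2) u (4 * (a0 + 3 ^ k * t)) := by
        intro t
        rw [G_succ, if_neg hs, if_neg (by rw [hmod]; omega), if_neg (by rw [hmod]; omega), add_zero]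
      rw [sum_congr rfl fun t _ => by rw [heq t]]
      refine part4.trans ?_
      apply mul_le_mul_of_nonneg_left _ (by positivity)
      have hα : 0 < A * c (4 * a0) := mul_pos H.hA0 (H.cpos _ (by omega))
      exact pow_le_pow_left₀ (inv_nonneg.mpr hα.le) (inv_anti₀ (H.cpos a0 ha0) hc5) _
    · have hb0 := mod3_eight h
      have hfeq : ∀ t, (2 * (a0 + 3 ^ k * t) - 1) / 3
          = (2 * a0 - 1) / 3 + 3 ^ (k - 1) * (2 * t) := by
        intro t
        rw [h3k]
        have : 2 * (a0 + 3 * 3 ^ (k - 1) * t) - 1 = (2 * a0 - 1) + 3 * (3 ^ (k - 1) * (2 * t)) := by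
          have : 2 * (a0 + 3 * 3 ^ (k - 1) * t) = 2 * a0 + 3 * (3 ^ (k - 1) * (2 * t)) := by ring
          omega
        rw [this, Nat.add_mul_div_left _ _ (by norm_num)]
      refine le_trans (le_of_eq (sum_congr rfl fun t _ => ?_))
        (comb C (E + 1) ((2 * a0 - 1) / 3) 2 (fun t => (2 * (a0 + 3 ^ k * t) - 1) / 3) H.hC0 hb0
          (by norm_num) hfeq (fun t => mod3_eight (by rw [hmod]; exact h)) (H.h8 a0 h))
      rw [G_succ, if_neg hs, if_neg (by rw [hmod]; omega), if_pos (by rw [hmod]; exact h)]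

/-- The constant in the bound on the number of bad residues. -/
noncomputable def C1 (c : ℕ → ℝ) (k q : ℕ) : ℝ :=
  ∑ a0 ∈ (range (3 ^ k)).filter (fun a => a % 3 = 2), ((c a0)⁻¹) ^ q

theorem C1_pos (H : RC g p A B C k q c e) : 0 < C1 c k q := by
  apply sum_pos
  · intro a ha
    have := H.cpos a (mem_filter.mp ha).2
    positivity
  · refine ⟨2, mem_filter.mpr ⟨mem_range.mpr ?_, rfl⟩⟩
    have : 3 ^ 2 ≤ 3 ^ k := Nat.pow_le_pow_right (by norm_num) H.hk
    omega

/-- The number of elements of a set of integers below `3^(m+k)` with small `G`. -/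
theorem card_bad (H : RC g p A B C k q c e) (m : ℕ) (hstop : ∀ E u, m ≤ u → stop E u = true)
    (l : ℕ) (P : Finset ℕ) (hP : ∀ a ∈ P, a < 3 ^ (m + k) ∧ a % 3 = 2) {z : ℝ} (hz : 0 < z) :
    ((P.filter (fun a => G c A B C stop l 0 0 a < z)).card : ℝ) ≤ z ^ q * (3 ^ m * C1 c k q) := by
  set P' := P.filter (fun a => G c A B C stop l 0 0 a < z) with hP'
  have hk := H.hk
  have h3k : 0 < 3 ^ k := by positivity
  -- sum of the inverse powers over P'
  have h1 : ∑ a ∈ P', ((G c A B C stop l 0 0 a)⁻¹) ^ q ≤ 3 ^ m * C1 c k q := by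
    have hmap : ∑ a ∈ P', ((G c A B C stop l 0 0 a)⁻¹) ^ q
        ≤ ∑ x ∈ ((range (3 ^ k)).filter (fun a => a % 3 = 2)) ×ˢ range (3 ^ m),
          ((G c A B C stop l 0 0 (x.1 + 3 ^ k * x.2))⁻¹) ^ q := by
      have himg : ∑ a ∈ P', ((G c A B C stop l 0 0 a)⁻¹) ^ q
          = ∑ x ∈ P'.image (fun a => (a % 3 ^ k, a / 3 ^ k)),
            ((G c A B C stop l 0 0 (x.1 + 3 ^ k * x.2))⁻¹) ^ q := by
        rw [sum_image]
        · refine sum_congr rfl fun a _ => ?_
          simp only [Nat.mod_add_div]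
        · intro a _ b _ hab
          simp only [Prod.mk.injEq] at hab
          rw [← Nat.mod_add_div a (3 ^ k), ← Nat.mod_add_div b (3 ^ k), hab.1, hab.2]
      rw [himg]
      apply sum_le_sum_of_subset_of_nonneg
      · intro x hx
        obtain ⟨a, ha, rfl⟩ := mem_image.mp hx
        obtain ⟨ha1, ha2⟩ := hP a (mem_filter.mp ha).1
        refine mem_product.mpr ⟨mem_filter.mpr ⟨mem_range.mpr (Nat.mod_lt _ h3k), ?_⟩, ?_⟩
        · simp only
          rw [Nat.mod_mod_of_dvd]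
          · exact ha2
          · exact dvd_pow_self 3 (by omega)
        · refine mem_range.mpr ?_
          simp only
          rw [Nat.div_lt_iff_lt_mul h3k, ← pow_add]
          exact ha1
      · intro x hx _
        have hx1 := (mem_filter.mp (mem_product.mp hx).1).2
        have : (x.1 + 3 ^ k * x.2) % 3 = 2 := by
          obtain ⟨d, hd⟩ : ∃ d, 3 ^ k = 3 * d := ⟨3 ^ (k - 1), by rw [← pow_succ']; congr 1; omega⟩
          rw [hd, mul_assoc]; omega
        have := G_pos (stop := stop) H l 0 0 _ this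
        positivity
    refine hmap.trans ?_
    rw [sum_product, C1, mul_sum]
    refine sum_le_sum fun a0 ha0 => ?_
    have := moment (stop := stop) H m hstop l 0 0 a0 (Nat.zero_le _) (mem_filter.mp ha0).2
    rw [Nat.sub_zero] at this
    exact this
  have h2 : (P'.card : ℝ) * (z⁻¹) ^ q ≤ ∑ a ∈ P', ((G c A B C stop l 0 0 a)⁻¹) ^ q := by
    rw [← nsmul_eq_mul, ← sum_const]
    refine sum_le_sum fun a ha => ?_
    have ha' := mem_filter.mp ha
    have hG := G_pos (stop := stop) H l 0 0 a (hP a ha'.1).2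
    exact pow_le_pow_left₀ (inv_nonneg.mpr hz.le) (inv_anti₀ hG ha'.2.le) _
  have h3 := h2.trans h1
  have hzq : 0 < z ^ q := pow_pos hz q
  calc (P'.card : ℝ) = z ^ q * ((P'.card : ℝ) * (z⁻¹) ^ q) := by
        rw [inv_pow]; field_simp
    _ ≤ z ^ q * (3 ^ m * C1 c k q) := mul_le_mul_of_nonneg_left h3 hzq.le

end Pool.Agent.Lib_helper2.Collatz
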