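import Pool.Agent.Lib_helper2.CollatzMoment2

/-!
# Real certificates from integer certificates
-/

namespace Pool.Agent.Lib_helper2.Collatz

open Finset

/-- The real exponent of a certificate. -/
noncomputable def Cert.g (K : Cert) : ℝ := (K.u : ℝ) / K.v

/-- The growth per digit of a certificate. -/
noncomputable def Cert.p (K : Cert) : ℝ := (K.P1 : ℝ) / K.P2

theorem pow_rpow_div {x : ℝ} (hx : 0 ≤ x) (u v : ℕ) (hv : v ≠ 0) :
    (x ^ ((u : ℝ) / v)) ^ v = x ^ u := by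
  rw [← Real.rpow_natCast (x ^ ((u : ℝ) / v)) v, ← Real.rpow_mul hx]
  have hv' : (v : ℝ) ≠ 0 := by exact_mod_cast hv
  rw [div_mul_cancel₀ _ hv', Real.rpow_natCast]

theorem RC.ofCert {K : Cert} {c e : ℕ → ℕ} (H : CertOK K c e) :
    RC K.g K.p ((K.A : ℝ) / K.D) ((K.B : ℝ) / K.D) ((K.C : ℝ) / K.D) K.k K.q
      (fun a => (c a : ℝ)) (fun b => (e b : ℝ)) := by
  have hA0 : (0 : ℝ) < K.A := by exact_mod_cast H.hApos
  have hB0 : (0 : ℝ) < K.B := by exact_mod_cast H.hBpos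
  have hC0 : (0 : ℝ) < K.C := by exact_mod_cast H.hCpos
  have hD0 : (0 : ℝ) < K.D := by exact_mod_cast H.hDpos
  have hP20 : (0 : ℝ) < K.P2 := by exact_mod_cast H.hP2pos
  have hP12 : (K.P2 : ℝ) < K.P1 := by exact_mod_cast H.hP
  have hP10 : (0 : ℝ) < K.P1 := hP20.trans hP12
  have hv : K.v ≠ 0 := by have := H.huv; omega
  have hv0 : (0 : ℝ) < K.v := by exact_mod_cast Nat.pos_of_ne_zero hv
  have hu0 : (0 : ℝ) < K.u := by exact_mod_cast H.hu
  have huv : (K.u : ℝ) < K.v := by exact_mod_cast H.huv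
  refine
    { hk := H.hk
      hq := H.hq
      hg0 := div_pos hu0 hv0
      hg1 := (div_lt_one hv0).mpr huv
      hp := (one_lt_div hP20).mpr hP12
      hA0 := div_pos hA0 hD0
      hB0 := div_pos hB0 hD0
      hC0 := div_pos hC0 hD0
      cper := fun a => by exact_mod_cast H.hcper a
      cpos := fun a ha => by exact_mod_cast H.hcpos a ha
      epos := fun b hb => by exact_mod_cast H.hepos b hb
      h5 := ?_
      h2 := ?_
      h8 := ?_
      hpow := ?_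
      hA := ?_
      hB := ?_
      hC := ?_ }
  · intro a ha
    have h : (K.D : ℝ) * c a ≤ K.A * c (4 * a) := by exact_mod_cast H.h5 a ha
    rw [div_mul_eq_mul_div, le_div_iff₀ hD0, mul_comm]
    exact h
  · intro a ha
    have h : (K.D : ℝ) * c a ≤ K.A * c (4 * a) + K.B * e ((4 * a - 2) / 3) := by
      exact_mod_cast H.h2 a ha
    rw [div_mul_eq_mul_div, div_mul_eq_mul_div, ← add_div, le_div_iff₀ hD0, mul_comm]
    exact h
  · intro a ha
    have h : (K.D : ℝ) * c a ≤ K.A * c (4 * a) + K.C * e ((2 * a - 1) / 3) := by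
      exact_mod_cast H.h8 a ha
    rw [div_mul_eq_mul_div, div_mul_eq_mul_div, ← add_div, le_div_iff₀ hD0, mul_comm]
    exact h
  · intro b hb
    have h3 : ∀ j : ℕ, (b + j * 3 ^ (K.k - 1)) % 3 = 2 := by
      intro j
      obtain ⟨d, hd⟩ : ∃ d, 3 ^ (K.k - 1) = 3 * d :=
        ⟨3 ^ (K.k - 2), by rw [← pow_succ']; congr 1; have := H.hk; omega⟩
      rw [hd, show j * (3 * d) = 3 * (j * d) by ring]; omega
    have h0 : (0 : ℝ) < c b := by exact_mod_cast H.hcpos b hb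
    have h1 : (0 : ℝ) < c (b + 3 ^ (K.k - 1)) := by
      have := h3 1; rw [one_mul] at this
      exact_mod_cast H.hcpos _ this
    have h2 : (0 : ℝ) < c (b + 2 * 3 ^ (K.k - 1)) := by exact_mod_cast H.hcpos _ (h3 2)
    have he : (0 : ℝ) < e b := by exact_mod_cast H.hepos b hb
    have h : (e b : ℝ) ^ K.q * ((c b : ℝ) ^ K.q * (c (b + 3 ^ (K.k - 1)) : ℝ) ^ K.q
      + (c b : ℝ) ^ K.q * (c (b + 2 * 3 ^ (K.k - 1)) : ℝ) ^ K.q
      + (c (b + 3 ^ (K.k - 1)) : ℝ) ^ K.q * (c (b + 2 * 3 ^ (K.k - 1)) : ℝ) ^ K.q)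
      ≤ 3 * ((c b : ℝ) ^ K.q * (c (b + 3 ^ (K.k - 1)) : ℝ) ^ K.q
        * (c (b + 2 * 3 ^ (K.k - 1)) : ℝ) ^ K.q) := by exact_mod_cast H.hpow b hb
    simp only [inv_pow]
    have p0 := pow_pos h0 K.q
    have p1 := pow_pos h1 K.q
    have p2 := pow_pos h2 K.q
    have pe := pow_pos he K.q
    generalize (c b : ℝ) ^ K.q = x0 at h p0 ⊢
    generalize (c (b + 3 ^ (K.k - 1)) : ℝ) ^ K.q = x1 at h p1 ⊢
    generalize (c (b + 2 * 3 ^ (K.k - 1)) : ℝ) ^ K.q = x2 at h p2 ⊢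
    generalize (e b : ℝ) ^ K.q = y at h pe ⊢
    have e1 : x0⁻¹ + x1⁻¹ + x2⁻¹ = (y * (x0 * x1 + x0 * x2 + x1 * x2)) / (y * (x0 * x1 * x2)) := by
      field_simp; ring
    have e2 : 3 * y⁻¹ = (3 * (x0 * x1 * x2)) / (y * (x0 * x1 * x2)) := by
      field_simp
    rw [e1, e2]
    exact div_le_div_of_nonneg_right h (by positivity)
  · have h : (K.A : ℝ) ^ K.v * 4 ^ K.u ≤ K.D ^ K.v := by exact_mod_cast H.hA
    rw [Real.rpow_neg (by norm_num), ← one_div, le_div_iff₀ (by positivity)]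
    rw [div_mul_eq_mul_div, div_le_one hD0]
    refine (pow_le_pow_iff_left₀ (by positivity) hD0.le hv).mp ?_
    rw [mul_pow, Cert.g, pow_rpow_div (by norm_num) _ _ hv]
    exact h
  · have h : ((K.B : ℝ) * K.P1) ^ K.v * 4 ^ K.u ≤ (K.D * K.P2) ^ K.v * 3 ^ K.u := by
      exact_mod_cast H.hB
    rw [Cert.p, inv_div, div_le_iff₀ hD0, mul_assoc, div_mul_eq_mul_div, ← mul_div_assoc,
      le_div_iff₀ hP10]
    refine (pow_le_pow_iff_left₀ (by positivity) (by positivity) hv).mp ?_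
    rw [mul_pow ((3 / 4 : ℝ) ^ K.g), Cert.g, pow_rpow_div (by norm_num) _ _ hv, div_pow,
      div_mul_eq_mul_div, le_div_iff₀ (by positivity)]
    calc ((K.B : ℝ) * K.P1) ^ K.v * 4 ^ K.u ≤ (K.D * K.P2) ^ K.v * 3 ^ K.u := h
      _ = 3 ^ K.u * (K.P2 * K.D) ^ K.v := by ring
  · have h : ((K.C : ℝ) * K.P1) ^ K.v * 2 ^ K.u ≤ (K.D * K.P2) ^ K.v * 3 ^ K.u := by
      exact_mod_cast H.hC
    rw [Cert.p, inv_div, div_le_iff₀ hD0, mul_assoc, div_mul_eq_mul_div, ← mul_div_assoc,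
      le_div_iff₀ hP10]
    refine (pow_le_pow_iff_left₀ (by positivity) (by positivity) hv).mp ?_
    rw [mul_pow ((3 / 2 : ℝ) ^ K.g), Cert.g, pow_rpow_div (by norm_num) _ _ hv, div_pow,
      div_mul_eq_mul_div, le_div_iff₀ (by positivity)]
    calc ((K.C : ℝ) * K.P1) ^ K.v * 2 ^ K.u ≤ (K.D * K.P2) ^ K.v * 3 ^ K.u := h
      _ = 3 ^ K.u * (K.P2 * K.D) ^ K.v := by ring

end Pool.Agent.Lib_helper2.Collatz
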