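import Pool.Agent.Lib_helper2.CollatzAnti

/-!
# The main step: from one antichain of descendants to another one
-/

namespace Pool.Agent.Lib_helper2.Collatz

open Finset

variable {g p A B C : ℝ} {k q : ℕ} {c e : ℕ → ℝ}

/-- Weights with sum at most one. -/
noncomputable def om (n : ℕ) : ℝ := 1 / (((n : ℝ) + 1) * (n + 2))

theorem om_pos (n : ℕ) : 0 < om n := by unfold om; positivity

theorem sum_om (M : ℕ) : ∑ n ∈ range M, om n = 1 - 1 / ((M : ℝ) + 1) := by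
  induction M with
  | zero => simp
  | succ M ih =>
    rw [sum_range_succ, ih, om]
    push_cast
    field_simp
    ring

theorem sum_om_le (M : ℕ) : ∑ n ∈ range M, om n ≤ 1 := by
  rw [sum_om]
  have : (0 : ℝ) < 1 / ((M : ℝ) + 1) := by positivity
  linarith

theorem sum_label (M : ℕ) :
    ∑ x ∈ (univ : Finset Bool) ×ˢ range M, om x.2 / 2 ≤ 1 := by
  rw [sum_product]
  simp only [Fintype.sum_bool]
  rw [← sum_div]
  have := sum_om_le M
  linarith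

theorem weighted {ι : Type*} (s : Finset ι) (hs : s.Nonempty) (ω F : ι → ℝ) {W : ℝ}
    (hω : ∑ x ∈ s, ω x ≤ 1) (hW : 0 ≤ W) (h : W ≤ ∑ x ∈ s, F x) : ∃ x ∈ s, ω x * W ≤ F x := by
  apply exists_le_of_sum_le hs
  rw [← sum_mul]
  exact (mul_le_of_le_one_left hW hω).trans h

theorem term_size {m l a i j : ℕ} (ha : 0 < a) (hhi : a < 4 ^ (i + 1)) (hij : i ≤ j) :
    ∀ t ∈ Term (stopRule m (4 ^ (j - i))) l 0 0 a, t.1 < 4 ^ (j + 2) := by
  intro t ht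
  have h1 := Term_upper (stop := stopRule m (4 ^ (j - i))) l a t ht
  have h2 := (Term_ratio m (4 ^ (j - i)) l a (Nat.one_le_pow _ _ (by norm_num)) t ht).2
  by_contra hcon
  have hcon : 4 ^ (j + 2) ≤ t.1 := by omega
  have h3 : 3 ^ t.2.2 * 4 ^ (j + 2) < 3 ^ t.2.2 * 4 ^ (j + 2) := by
    calc 3 ^ t.2.2 * 4 ^ (j + 2) ≤ 3 ^ t.2.2 * t.1 := Nat.mul_le_mul_left _ hcon
      _ ≤ 2 ^ t.2.1 * a := h1
      _ < 4 * 4 ^ (j - i) * 3 ^ t.2.2 * a := Nat.mul_lt_mul_of_pos_right h2 ha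
      _ ≤ 4 * 4 ^ (j - i) * 3 ^ t.2.2 * 4 ^ (i + 1) := Nat.mul_le_mul_left _ hhi.le
      _ = 3 ^ t.2.2 * 4 ^ (j + 2) := by
          rw [show j + 2 = 1 + (j - i) + (i + 1) by omega, pow_add, pow_add]; ring
  exact lt_irrefl _ h3

theorem term_size_low {m l a i j : ℕ} (hlo : 4 ^ i ≤ a) (hij : i ≤ j) (hm3 : 3 ≤ m)
    (h3m : 3 ^ m ≤ 4 ^ (i + 1)) (hl : 2 * m + Nat.log 2 (4 ^ (j - i)) + 1 ≤ l) :
    ∀ t ∈ Term (stopRule m (4 ^ (j - i))) l 0 0 a, t.2.2 ≠ m → 4 ^ j ≤ 4 * t.1 := by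
  intro t ht hne
  have hstop : 4 ^ (j - i) * 3 ^ t.2.2 ≤ 2 ^ t.2.1 := by
    rcases Term_stopped m (4 ^ (j - i)) l a hl t ht with h | h
    · exact absurd h hne
    · exact h
  have hum := (Term_ratio m (4 ^ (j - i)) l a (Nat.one_le_pow _ _ (by norm_num)) t ht).1
  have hlow := Term_lower (stop := stopRule m (4 ^ (j - i))) l a t ht
  have hlo' : (4 : ℝ) ^ i ≤ a := by exact_mod_cast hlo
  have h3m' : (3 : ℝ) ^ m ≤ 4 ^ (i + 1) := by exact_mod_cast h3m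
  have h32 : (3 / 2 : ℝ) ^ t.2.2 ≤ a / 2 := by
    calc (3 / 2 : ℝ) ^ t.2.2 ≤ (3 / 2 : ℝ) ^ m := pow_le_pow_right₀ (by norm_num) hum
      _ = 3 ^ m / 2 ^ m := by rw [div_pow]
      _ ≤ 4 ^ (i + 1) / 2 ^ 3 := by
          apply div_le_div₀ (by positivity) h3m' (by positivity)
          exact pow_le_pow_right₀ (by norm_num) hm3
      _ = 4 ^ i / 2 := by rw [pow_succ]; ring
      _ ≤ a / 2 := by linarith
  have hstop' : (4 : ℝ) ^ (j - i) * 3 ^ t.2.2 ≤ 2 ^ t.2.1 := by exact_mod_cast hstop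
  have h2E : (0 : ℝ) < 2 ^ t.2.1 := by positivity
  have h3u : (0 : ℝ) < 3 ^ t.2.2 := by positivity
  have h4 : (2 : ℝ) ^ t.2.1 * (a / 2) ≤ 3 ^ t.2.2 * t.1 := by
    have := mul_le_mul_of_nonneg_left h32 h2E.le
    nlinarith
  have ha0 : (0 : ℝ) ≤ a / 2 := by positivity
  have h5 : (3 : ℝ) ^ t.2.2 * (4 ^ (j - i) * (a / 2)) ≤ 3 ^ t.2.2 * t.1 := by
    calc (3 : ℝ) ^ t.2.2 * (4 ^ (j - i) * (a / 2)) = (4 ^ (j - i) * 3 ^ t.2.2) * (a / 2) := by ring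
      _ ≤ 2 ^ t.2.1 * (a / 2) := mul_le_mul_of_nonneg_right hstop' ha0
      _ ≤ _ := h4
  have h6 := le_of_mul_le_mul_left h5 h3u
  have h7 : (4 : ℝ) ^ j ≤ 4 * t.1 := by
    have e1 : (4 : ℝ) ^ j = 4 ^ (j - i) * 4 ^ i := by rw [← pow_add]; congr 1; omega
    have h8 : (4 : ℝ) ^ (j - i) * 4 ^ i ≤ 4 ^ (j - i) * a :=
      mul_le_mul_of_nonneg_left hlo' (by positivity)
    have h9 : (0 : ℝ) ≤ t.1 := Nat.cast_nonneg _
    rw [e1]; linarith
  exact_mod_cast h7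

/-- The set of terminal nodes with a given label. -/
noncomputable def Lab (m l a i j : ℕ) (x : Bool × ℕ) : Finset (ℕ × ℕ × ℕ) :=
  (Term (stopRule m (4 ^ (j - i))) l 0 0 a).filter
    (fun t => (decide (t.2.2 = m), Nat.log 4 t.1) = x)

theorem elem (H : RC g p A B C k q c e) {cM : ℝ} (hcM : ∀ a, a % 3 = 2 → c a ≤ cM)
    {m l a i j : ℕ} (hhi : a < 4 ^ (i + 1)) (ha3 : a % 3 = 2) (hNP : NP a)
    (hij : i ≤ j) {z : ℝ} (hz : 0 < z)
    (hG : z ≤ G c A B C (stopRule m (4 ^ (j - i))) l 0 0 a) :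
    ∃ x ∈ (univ : Finset Bool) ×ˢ range (j + 2),
      om x.2 / 2 * (z * ((4 : ℝ) ^ (i + 1)) ^ (-g)) ≤
        ((Lab m l a i j x).card : ℝ) * (cM * ((4 : ℝ) ^ x.2) ^ (-g) *
          (if x.1 = true then (p⁻¹) ^ m else 1)) := by
  have ha0 : 0 < a := by omega
  have ha0' : (0 : ℝ) < a := by exact_mod_cast ha0
  have hp0 : 0 < p := lt_trans one_pos H.hp
  have hpi : 0 < p⁻¹ := inv_pos.mpr hp0
  have hpi1 : p⁻¹ ≤ 1 := inv_le_one_of_one_le₀ H.hp.le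
  have hcM0 : 0 < cM := (H.cpos 2 rfl).trans_le (hcM 2 rfl)
  have hexp := G_expand (stop := stopRule m (4 ^ (j - i))) H l 0 0 a ha3 hNP
  rw [pow_zero, mul_one] at hexp
  have hga : ((4 : ℝ) ^ (i + 1)) ^ (-g) ≤ (a : ℝ) ^ (-g) := by
    apply Real.rpow_le_rpow_of_nonpos ha0' _ (by linarith [H.hg0])
    exact_mod_cast hhi.le
  set W := z * ((4 : ℝ) ^ (i + 1)) ^ (-g) with hW
  have hW0 : 0 ≤ W := by positivity
  have hWle : W ≤ ∑ t ∈ Term (stopRule m (4 ^ (j - i))) l 0 0 a,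
      c t.1 * (t.1 : ℝ) ^ (-g) * (p⁻¹) ^ t.2.2 := by
    refine le_trans ?_ hexp
    exact mul_le_mul hG hga (by positivity) (hz.le.trans hG)
  -- partition by labels
  have hmaps : ∀ t ∈ Term (stopRule m (4 ^ (j - i))) l 0 0 a,
      ((decide (t.2.2 = m), Nat.log 4 t.1) : Bool × ℕ) ∈ (univ : Finset Bool) ×ˢ range (j + 2) := by
    intro t ht
    refine mem_product.mpr ⟨mem_univ _, mem_range.mpr ?_⟩
    have h1 := term_size ha0 hhi hij t ht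
    have h0 := Term_mod (stop := stopRule m (4 ^ (j - i))) l 0 0 a ha3 t ht
    exact Nat.log_lt_of_lt_pow (by omega) h1
  have hpart := sum_fiberwise_of_maps_to hmaps
    (fun t : ℕ × ℕ × ℕ => c t.1 * (t.1 : ℝ) ^ (-g) * (p⁻¹) ^ t.2.2)
  rw [← hpart] at hWle
  refine weighted _ ⟨(true, 0), mem_product.mpr ⟨mem_univ _, mem_range.mpr (by omega)⟩⟩
    (fun x => om x.2 / 2) _ (sum_label (j + 2)) hW0 (hWle.trans (sum_le_sum fun x hx => ?_))
  -- bound of one block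
  have hblock : ∀ t ∈ Lab m l a i j x, c t.1 * (t.1 : ℝ) ^ (-g) * (p⁻¹) ^ t.2.2
      ≤ cM * ((4 : ℝ) ^ x.2) ^ (-g) * (if x.1 = true then (p⁻¹) ^ m else 1) := by
    intro t ht
    obtain ⟨ht1, ht2⟩ := mem_filter.mp ht
    have h0 := Term_mod (stop := stopRule m (4 ^ (j - i))) l 0 0 a ha3 t ht1
    have hc := hcM t.1 h0
    have hc0 := H.cpos t.1 h0
    have hlog : 4 ^ x.2 ≤ t.1 := by
      rw [← ht2]
      exact Nat.pow_log_le_self 4 (by omega)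
    have hlog' : ((4 : ℝ) ^ x.2) ≤ t.1 := by exact_mod_cast hlog
    have hg1 : (t.1 : ℝ) ^ (-g) ≤ ((4 : ℝ) ^ x.2) ^ (-g) :=
      Real.rpow_le_rpow_of_nonpos (by positivity) hlog' (by linarith [H.hg0])
    have hpu : (p⁻¹) ^ t.2.2 ≤ (if x.1 = true then (p⁻¹) ^ m else 1) := by
      split_ifs with hx1
      · have : t.2.2 = m := by
          rw [← ht2] at hx1
          simpa using hx1
        rw [this]
      · exact pow_le_one₀ hpi.le hpi1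
    have hn1 : (0 : ℝ) ≤ (t.1 : ℝ) ^ (-g) := by positivity
    exact mul_le_mul (mul_le_mul hc hg1 hn1 hcM0.le) hpu (by positivity) (by positivity)
  have := sum_le_card_nsmul _ _ _ hblock
  rw [nsmul_eq_mul] at this
  exact this

end Pool.Agent.Lib_helper2.Collatz
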