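import Pool.Agent.Lib_helper2.CollatzStep

/-!
# The main step: the union over an antichain
-/

namespace Pool.Agent.Lib_helper2.Collatz

open Finset

variable {g p A B C : ℝ} {k q : ℕ} {c e : ℕ → ℝ}

theorem c_bound (H : RC g p A B C k q c e) : ∃ cM : ℝ, 0 < cM ∧ ∀ a, a % 3 = 2 → c a ≤ cM := by
  have hk := H.hk
  have h3 : 3 ∣ 3 ^ k := dvd_pow_self 3 (by omega)
  refine ⟨∑ b ∈ (range (3 ^ k)).filter (fun a => a % 3 = 2), c b, ?_, ?_⟩
  · apply sum_pos
    · intro a ha; exact H.cpos a (mem_filter.mp ha).2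
    · refine ⟨2, mem_filter.mpr ⟨mem_range.mpr ?_, rfl⟩⟩
      have : 3 ^ 2 ≤ 3 ^ k := Nat.pow_le_pow_right (by norm_num) H.hk
      omega
  · intro a ha
    rw [← periodic_mod H.cper a]
    apply single_le_sum (f := c) (s := (range (3 ^ k)).filter (fun a => a % 3 = 2))
    · intro b hb; exact (H.cpos b (mem_filter.mp hb).2).le
    · refine mem_filter.mpr ⟨mem_range.mpr (Nat.mod_lt _ (by positivity)), ?_⟩
      rw [Nat.mod_mod_of_dvd _ h3]; exact ha

theorem Anti.subset {r i : ℕ} {P Q : Finset ℕ} (h : Anti r i P) (hQ : Q ⊆ P) : Anti r i Q :=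
  ⟨fun a ha => h.lo a (hQ ha), fun a ha => h.hi a (hQ ha), fun a ha => h.mod a (hQ ha),
    fun a ha => h.desc a (hQ ha), fun a ha b hb => h.indep a (hQ ha) b (hQ hb)⟩

/-- Digits available in the band `[4^i, 4^(i+1))`. -/
theorem digits {i : ℕ} (hk : 1 ≤ k) (hi : k + 2 ≤ i) :
    ∃ m : ℕ, 3 ≤ m ∧ 3 ^ m ≤ 4 ^ (i + 1) ∧ 4 ^ (i + 1) ≤ 3 ^ (m + k) := by
  have h1 : i + 1 ≤ Nat.clog 3 (4 ^ (i + 1)) := by
    by_contra hcon
    have h2 : 4 ^ (i + 1) ≤ 3 ^ Nat.clog 3 (4 ^ (i + 1)) := Nat.le_pow_clog (by norm_num) _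
    have h3 : 3 ^ Nat.clog 3 (4 ^ (i + 1)) ≤ 3 ^ i := Nat.pow_le_pow_right (by norm_num) (by omega)
    have h4 : 3 ^ i < 4 ^ (i + 1) := by
      calc 3 ^ i ≤ 4 ^ i := Nat.pow_le_pow_left (by norm_num) _
        _ < 4 ^ (i + 1) := Nat.pow_lt_pow_right (by norm_num) (by omega)
    omega
  refine ⟨Nat.clog 3 (4 ^ (i + 1)) - k, by omega, ?_, ?_⟩
  · calc 3 ^ (Nat.clog 3 (4 ^ (i + 1)) - k) ≤ 3 ^ (Nat.clog 3 (4 ^ (i + 1)) - 1) :=
          Nat.pow_le_pow_right (by norm_num) (by omega)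
      _ ≤ 4 ^ (i + 1) := (Nat.pow_pred_clog_lt_self (by norm_num)
          (Nat.one_lt_pow (by omega) (by norm_num))).le
  · rw [Nat.sub_add_cancel (by omega)]
    exact Nat.le_pow_clog (by norm_num) _

theorem four_logb {x : ℝ} (hx : 0 < x) : (4 : ℝ) ^ (Real.logb 4 x) = x :=
  Real.rpow_logb (by norm_num) (by norm_num) hx

/-- The growth accumulated by using all digits. -/
theorem growth {m i : ℕ} (hp : 1 < p) (h : 4 ^ (i + 1) ≤ 3 ^ (m + k)) :
    (4 : ℝ) ^ (Real.logb 3 p * (i + 1) - k * Real.logb 4 p) ≤ p ^ m := by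
  have hp0 : 0 < p := lt_trans one_pos hp
  have h4 : (0 : ℝ) < Real.log 4 := Real.log_pos (by norm_num)
  have h3 : (0 : ℝ) < Real.log 3 := Real.log_pos (by norm_num)
  have hlp : 0 < Real.log p := Real.log_pos hp
  have h' : (4 : ℝ) ^ (i + 1) ≤ 3 ^ (m + k) := by exact_mod_cast h
  have h1 : ((i : ℝ) + 1) * Real.log 4 ≤ (m + k) * Real.log 3 := by
    have := Real.log_le_log (by positivity) h'
    rw [Real.log_pow, Real.log_pow] at this
    push_cast at this
    exact this
  have e1 : p ^ m = (4 : ℝ) ^ (m * Real.logb 4 p) := by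
    rw [mul_comm, Real.rpow_mul (by norm_num), four_logb hp0, Real.rpow_natCast]
  rw [e1]
  apply Real.rpow_le_rpow_of_exponent_le (by norm_num)
  rw [Real.logb, Real.logb]
  have h2 : Real.log p / Real.log 3 * (i + 1) ≤ (m + k) * (Real.log p / Real.log 4) := by
    rw [div_mul_eq_mul_div, mul_div_assoc', div_le_div_iff₀ h3 h4]
    calc Real.log p * (i + 1) * Real.log 4 = Real.log p * (((i : ℝ) + 1) * Real.log 4) := by ring
      _ ≤ Real.log p * ((m + k) * Real.log 3) := mul_le_mul_of_nonneg_left h1 hlp.le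
      _ = (m + k) * Real.log p * Real.log 3 := by ring
  linarith

theorem om_ge (n : ℕ) : (4 : ℝ) ^ (-(2 * Real.logb 4 ((n : ℝ) + 2))) ≤ om n := by
  have h2 : (0 : ℝ) < (n : ℝ) + 2 := by positivity
  rw [Real.rpow_neg (by norm_num), mul_comm, Real.rpow_mul (by norm_num), four_logb h2, om,
    ← one_div]
  apply one_div_le_one_div_of_le (by positivity)
  rw [show (2 : ℝ) = ((2 : ℕ) : ℝ) by norm_num, Real.rpow_natCast]
  push_cast
  nlinarith

theorem step (H : RC g p A B C k q c e) {r : ℕ} (hr : NP r) : ∃ K : ℝ, 1 ≤ K ∧ ∀ i j : ℕ,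
    k + 2 ≤ i → i ≤ j → ∀ y : ℝ, Has r i y → ∃ n : ℕ, n ≤ j + 1 ∧
      ((Has r n (y - (K + 4 * Real.logb 4 ((n : ℝ) + 2))) ∧
        Has r n (y + (y - i) / q + Real.logb 3 p * i + g * ((n : ℝ) - i)
          - (K + 4 * Real.logb 4 ((n : ℝ) + 2)))) ∨
       (j ≤ n + 1 ∧ Has r n (y + (y - i) / q + g * ((n : ℝ) - i)
          - (K + 4 * Real.logb 4 ((n : ℝ) + 2))))) := by
  classical
  obtain ⟨cM, hcM0, hcM⟩ := c_bound H
  have hC1 := C1_pos H
  have hp0 : 0 < p := lt_trans one_pos H.hp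
  have hpi : 0 < p⁻¹ := inv_pos.mpr hp0
  have hq1 : (1 : ℝ) ≤ q := by exact_mod_cast H.hq
  have hq0 : (0 : ℝ) < q := by linarith
  have hg0 := H.hg0
  have hg1 := H.hg1
  set lc := Real.logb 4 (2 * C1 c k q) with hlc
  set lm := Real.logb 4 cM with hlm
  have h4lc : (4 : ℝ) ^ lc = 2 * C1 c k q := four_logb (by positivity)
  have h4lm : (4 : ℝ) ^ lm = cM := four_logb hcM0
  have hl4p : 0 ≤ Real.logb 4 p := Real.logb_nonneg (by norm_num) H.hp.le
  have hl3p : 0 ≤ Real.logb 3 p := Real.logb_nonneg (by norm_num) H.hp.le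
  have hkl : 0 ≤ (k : ℝ) * Real.logb 4 p := by positivity
  refine ⟨4 + |lc| + |lm| + k * Real.logb 4 p, by
    have := abs_nonneg lc; have := abs_nonneg lm; linarith, ?_⟩
  intro i j hki hij y hHas
  obtain ⟨P, hP, hcard⟩ := hHas
  obtain ⟨m, hm3, h3m, h3mk⟩ := digits (k := k) (by have := H.hk; omega) hki
  set l := 2 * m + Nat.log 2 (4 ^ (j - i)) + 1 with hl
  set z : ℝ := (4 : ℝ) ^ ((y - (i + 1) - lc) / q) with hz
  have hz0 : 0 < z := by positivity
  have hzq : z ^ q = (4 : ℝ) ^ (y - (i + 1) - lc) := by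
    rw [hz, ← Real.rpow_natCast ((4 : ℝ) ^ ((y - (i + 1) - lc) / q)) q,
      ← Real.rpow_mul (by norm_num), div_mul_cancel₀ _ hq0.ne']
  set stop := stopRule m (4 ^ (j - i)) with hstop
  have hstop' : ∀ E u, m ≤ u → stop E u = true := fun E u h => stopRule_true.mpr (Or.inl h)
  have hbad := card_bad (stop := stop) H m hstop' l P
    (fun a ha => ⟨(hP.hi a ha).trans_le h3mk, hP.mod a ha⟩) hz0
  -- the number of good elements
  set Good := P.filter (fun a => ¬ (G c A B C stop l 0 0 a < z)) with hGood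
  have hsplit : (P.filter (fun a => G c A B C stop l 0 0 a < z)).card + Good.card = P.card :=
    card_filter_add_card_filter_not _
  have h3m' : (3 : ℝ) ^ m ≤ 4 ^ (i + 1) := by exact_mod_cast h3m
  have hbad2 : z ^ q * (3 ^ m * C1 c k q) ≤ 4 ^ y / 2 := by
    rw [hzq, Real.rpow_sub (by norm_num), Real.rpow_sub (by norm_num), h4lc,
      show ((i : ℝ) + 1) = ((i + 1 : ℕ) : ℝ) by push_cast; ring, Real.rpow_natCast]
    have h4y : (0 : ℝ) < 4 ^ y := by positivity
    have h4i : (0 : ℝ) < 4 ^ (i + 1) := by positivity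
    calc 4 ^ y / 4 ^ (i + 1) / (2 * C1 c k q) * (3 ^ m * C1 c k q)
        = 4 ^ y / 2 * (3 ^ m / 4 ^ (i + 1)) := by field_simp
      _ ≤ 4 ^ y / 2 * 1 := by
          apply mul_le_mul_of_nonneg_left _ (by positivity)
          exact (div_le_one h4i).mpr h3m'
      _ = 4 ^ y / 2 := by ring
  have hgood : (4 : ℝ) ^ y / 2 ≤ Good.card := by
    have h1 : ((P.filter (fun a => G c A B C stop l 0 0 a < z)).card : ℝ) + Good.card
        = P.card := by exact_mod_cast hsplit
    linarith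
  have hgood0 : (0 : ℝ) < Good.card := lt_of_lt_of_le (by positivity) hgood
  -- labels
  have hlab : ∀ a, ∃ x : Bool × ℕ, a ∈ Good → x ∈ (univ : Finset Bool) ×ˢ range (j + 2) ∧
      om x.2 / 2 * (z * ((4 : ℝ) ^ (i + 1)) ^ (-g)) ≤
        ((Lab m l a i j x).card : ℝ) * (cM * ((4 : ℝ) ^ x.2) ^ (-g) *
          (if x.1 = true then (p⁻¹) ^ m else 1)) := by
    intro a
    by_cases ha : a ∈ Good
    · obtain ⟨haP, haG⟩ := mem_filter.mp ha
      obtain ⟨x, hx1, hx2⟩ := elem H hcM (m := m) (l := l) (hP.hi a haP) (hP.mod a haP)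
        (hr.of_desc (hP.desc a haP)) hij hz0 (not_lt.mp haG)
      exact ⟨x, fun _ => ⟨hx1, hx2⟩⟩
    · exact ⟨(true, 0), fun h => absurd h ha⟩
  choose lab hlab using hlab
  obtain ⟨x, hxmem, hx⟩ := weighted ((univ : Finset Bool) ×ˢ range (j + 2))
    ⟨(true, 0), mem_product.mpr ⟨mem_univ _, mem_range.mpr (by omega)⟩⟩
    (fun x => om x.2 / 2) (fun x => ((Good.filter (fun a => lab a = x)).card : ℝ))
    (W := (Good.card : ℝ)) (sum_label (j + 2)) hgood0.le (by
      have := card_eq_sum_card_fiberwise (f := lab) (s := Good)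
        (t := (univ : Finset Bool) ×ˢ range (j + 2)) (fun a ha => (hlab a ha).1)
      have h2 : (Good.card : ℝ) = ∑ x ∈ (univ : Finset Bool) ×ˢ range (j + 2),
          ((Good.filter (fun a => lab a = x)).card : ℝ) := by exact_mod_cast this
      exact h2.le)
  set Q := Good.filter (fun a => lab a = x) with hQ
  set n := x.2 with hn
  have hnj : n < j + 2 := mem_range.mp (mem_product.mp hxmem).2
  have hom := om_pos n
  -- elements of Q
  have hQP : Q ⊆ P := (filter_subset _ _).trans (filter_subset _ _)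
  have hQlab : ∀ a ∈ Q, om n / 2 * (z * ((4 : ℝ) ^ (i + 1)) ^ (-g)) ≤
        ((Lab m l a i j x).card : ℝ) * (cM * ((4 : ℝ) ^ n) ^ (-g) *
          (if x.1 = true then (p⁻¹) ^ m else 1)) := by
    intro a ha
    obtain ⟨ha1, ha2⟩ := mem_filter.mp ha
    have := (hlab a ha1).2
    rw [ha2] at this
    exact this
  set F : ℕ → Finset ℕ := fun a => (Lab m l a i j x).image (fun t => t.1) with hF
  have hFcard : ∀ a ∈ Q, (F a).card = (Lab m l a i j x).card := by
    intro a ha
    apply card_image_of_injOn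
    intro t ht t' ht' htt
    exact Term_fst_inj (hr.of_desc (hP.desc a (hQP ha)))
      (mem_coe.mpr (mem_filter.mp (mem_coe.mp ht)).1)
      (mem_coe.mpr (mem_filter.mp (mem_coe.mp ht')).1) htt
  have hFmem : ∀ a ∈ Q, ∀ b ∈ F a, ∃ t ∈ Term stop l 0 0 a, t.1 = b ∧
      decide (t.2.2 = m) = x.1 ∧ Nat.log 4 b = n := by
    intro a _ b hb
    obtain ⟨t, ht, rfl⟩ := mem_image.mp hb
    obtain ⟨ht1, ht2⟩ := mem_filter.mp ht
    refine ⟨t, ht1, rfl, ?_, ?_⟩
    · rw [← ht2]
    · rw [hn, ← ht2]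
  obtain ⟨hanti, hcardU⟩ := (hP.subset hQP).biUnion (n := n) F
    (by
      intro a ha b hb
      obtain ⟨t, ht, rfl, -, hlog⟩ := hFmem a ha b hb
      have h0 := Term_mod (stop := stop) l 0 0 a (hP.mod a (hQP ha)) t ht
      rw [← hlog]
      exact Nat.pow_log_le_self 4 (by omega))
    (by
      intro a ha b hb
      obtain ⟨t, ht, rfl, -, hlog⟩ := hFmem a ha b hb
      rw [← hlog]
      exact Nat.lt_pow_succ_log_self (by norm_num) _)
    (by
      intro a ha b hb
      obtain ⟨t, ht, rfl, -, -⟩ := hFmem a ha b hb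
      exact Term_mod (stop := stop) l 0 0 a (hP.mod a (hQP ha)) t ht)
    (by
      intro a ha b hb
      obtain ⟨t, ht, rfl, -, -⟩ := hFmem a ha b hb
      exact Term_desc_self l 0 0 a t ht)
    (by
      intro a ha b hb b' hb' s hs
      obtain ⟨t, ht, rfl, -, -⟩ := hFmem a ha b hb
      obtain ⟨t', ht', rfl, -, -⟩ := hFmem a ha b' hb'
      rw [Term_indep l 0 0 a (hr.of_desc (hP.desc a (hQP ha))) t ht t' ht' s hs])
  -- sizes
  have hom' : (4 : ℝ) ^ (-(2 * Real.logb 4 ((n : ℝ) + 2))) ≤ om n := om_ge n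
  set lam := Real.logb 4 ((n : ℝ) + 2) with hlam
  have hlam0 : 0 ≤ lam := Real.logb_nonneg (by norm_num) (by
    have : (0 : ℝ) ≤ n := Nat.cast_nonneg n
    linarith)
  have hQcard : (4 : ℝ) ^ (y - 1 - 2 * lam) ≤ Q.card := by
    refine le_trans ?_ hx
    have e1 : (4 : ℝ) ^ (y - 1 - 2 * lam) = 4 ^ (-(2 * lam)) / 2 * (4 ^ y / 2) := by
      rw [show y - 1 - 2 * lam = -(2 * lam) + y - 1 by ring, Real.rpow_sub (by norm_num),
        Real.rpow_add (by norm_num), Real.rpow_one]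
      ring
    rw [e1]
    exact mul_le_mul (by linarith) hgood (by positivity) (by positivity)
  have hX : ∀ a ∈ Q, (4 : ℝ) ^ (-(2 * lam) - 1 + (y - (i + 1) - lc) / q - g * (i + 1) - lm
      + g * n) * (if x.1 = true then p ^ m else 1) ≤ ((F a).card : ℝ) := by
    intro a ha
    rw [hFcard a ha]
    have h1 := hQlab a ha
    have hw0 : 0 < cM * ((4 : ℝ) ^ n) ^ (-g) * (if x.1 = true then (p⁻¹) ^ m else 1) := by
      have : (0 : ℝ) < (if x.1 = true then (p⁻¹) ^ m else 1) := by split_ifs <;> positivity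
      positivity
    have h2 : om n / 2 * (z * ((4 : ℝ) ^ (i + 1)) ^ (-g)) /
        (cM * ((4 : ℝ) ^ n) ^ (-g) * (if x.1 = true then (p⁻¹) ^ m else 1))
        ≤ (Lab m l a i j x).card := (div_le_iff₀ hw0).mpr h1
    refine le_trans ?_ h2
    have e1 : ((4 : ℝ) ^ (i + 1)) ^ (-g) = (4 : ℝ) ^ (-(g * (i + 1))) := by
      rw [← Real.rpow_natCast, ← Real.rpow_mul (by norm_num)]
      congr 1; push_cast; ring
    have e2 : ((4 : ℝ) ^ n) ^ (-g) = (4 : ℝ) ^ (-(g * n)) := by
      rw [← Real.rpow_natCast, ← Real.rpow_mul (by norm_num)]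
      congr 1; ring
    rw [e1, e2, hz, ← h4lm]
    have e3 : (4 : ℝ) ^ (-(2 * lam) - 1 + (y - (i + 1) - lc) / q - g * (i + 1) - lm + g * n)
        = (4 : ℝ) ^ (-(2 * lam)) / 4 * (4 ^ ((y - (i + 1) - lc) / q) * 4 ^ (-(g * (i + 1))))
          / (4 ^ lm * 4 ^ (-(g * n))) := by
      have e0 : (4 : ℝ) ^ (-(2 * lam)) / 4 = 4 ^ (-(2 * lam) - 1) := by
        rw [Real.rpow_sub (by norm_num), Real.rpow_one]
      rw [e0, ← Real.rpow_add (by norm_num), ← Real.rpow_add (by norm_num),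
        ← Real.rpow_add (by norm_num), ← Real.rpow_sub (by norm_num)]
      congr 1; ring
    rw [e3]
    have hif : (if x.1 = true then p ^ m else 1) = ((if x.1 = true then (p⁻¹) ^ m else 1))⁻¹ := by
      split_ifs
      · rw [inv_pow, inv_inv]
      · rw [inv_one]
    rw [hif]
    have hif0 : (0 : ℝ) < (if x.1 = true then (p⁻¹) ^ m else 1) := by split_ifs <;> positivity
    set w : ℝ := (if x.1 = true then (p⁻¹) ^ m else 1) with hw
    have e4 : (4 : ℝ) ^ (-(2 * lam)) / 4 * (4 ^ ((y - (i + 1) - lc) / q) * 4 ^ (-(g * (i + 1))))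
          / (4 ^ lm * 4 ^ (-(g * n))) * w⁻¹
        = (4 : ℝ) ^ (-(2 * lam)) / 4 * (4 ^ ((y - (i + 1) - lc) / q) * 4 ^ (-(g * (i + 1))))
          / (4 ^ lm * 4 ^ (-(g * n)) * w) := by
      field_simp
    rw [e4]
    apply div_le_div_of_nonneg_right _ (by positivity)
    apply mul_le_mul_of_nonneg_right _ (by positivity)
    have : (0 : ℝ) < (4 : ℝ) ^ (-(2 * lam)) := by positivity
    linarith
  have hsumU : ∀ X : ℝ, (∀ a ∈ Q, X ≤ ((F a).card : ℝ)) → Q.card * X ≤ ((Q.biUnion F).card : ℝ) := by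
    intro X hX
    rw [hcardU]
    push_cast
    have := card_nsmul_le_sum Q (fun a => ((F a).card : ℝ)) X hX
    rwa [nsmul_eq_mul] at this
  have hFpos : ∀ a ∈ Q, (1 : ℝ) ≤ ((F a).card : ℝ) := by
    intro a ha
    have h1 := hX a ha
    have h2 : (0 : ℝ) < ((F a).card : ℝ) := lt_of_lt_of_le (by
      have : (0 : ℝ) < (if x.1 = true then p ^ m else 1) := by split_ifs <;> positivity
      positivity) h1
    have h3 : 0 < (F a).card := by exact_mod_cast h2
    exact_mod_cast h3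
  have habs1 := neg_abs_le lc
  have habs1' := le_abs_self lc
  have habs2 := le_abs_self lm
  have hlcq : (1 + lc) / q ≤ 1 + |lc| := by
    have h1 : (1 + lc) / q ≤ (1 + |lc|) / q := div_le_div_of_nonneg_right (by linarith) hq0.le
    have h2 : (1 + |lc|) / q ≤ 1 + |lc| := div_le_self (by positivity) hq1
    linarith
  have hdivq : (y - (i + 1) - lc) / q = (y - i) / q - (1 + lc) / q := by ring
  have hlmabs := abs_nonneg lm
  have hlcabs := abs_nonneg lc
  refine ⟨n, by omega, ?_⟩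
  have hcount : Has r n (y - (4 + |lc| + |lm| + k * Real.logb 4 p + 4 * lam)) := by
    refine ⟨Q.biUnion F, hanti, ?_⟩
    have h1 := hsumU 1 hFpos
    rw [mul_one] at h1
    refine le_trans (le_trans ?_ hQcard) h1
    apply Real.rpow_le_rpow_of_exponent_le (by norm_num)
    linarith
  cases hx1 : x.1 with
  | true =>
    left
    refine ⟨hcount, Q.biUnion F, hanti, ?_⟩
    simp only [hx1, if_true] at hX
    have hgr := growth (k := k) H.hp h3mk
    have h1 := hsumU _ (fun a ha => le_trans (mul_le_mul_of_nonneg_left hgr (by positivity))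
      (hX a ha))
    refine le_trans ?_ h1
    refine le_trans ?_ (mul_le_mul_of_nonneg_right hQcard (by positivity))
    rw [← Real.rpow_add (by norm_num), ← Real.rpow_add (by norm_num)]
    apply Real.rpow_le_rpow_of_exponent_le (by norm_num)
    rw [hdivq]
    have e5 : g * ((i : ℝ) + 1) = g * i + g := by ring
    have e6 : Real.logb 3 p * ((i : ℝ) + 1) = Real.logb 3 p * i + Real.logb 3 p := by ring
    have e7 : g * ((n : ℝ) - i) = g * n - g * i := by ring
    rw [e5, e6, e7]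
    linarith
  | false =>
    right
    simp only [hx1, Bool.false_eq_true, if_false, mul_one] at hX
    refine ⟨?_, Q.biUnion F, hanti, ?_⟩
    · -- an element of Q has a descendant there
      have hQne : Q.Nonempty := by
        rw [← card_pos]
        have : (0 : ℝ) < Q.card := lt_of_lt_of_le (by positivity) hQcard
        exact_mod_cast this
      obtain ⟨a, ha⟩ := hQne
      have hFne : (F a).Nonempty := by
        rw [← card_pos]
        have : (0 : ℝ) < (F a).card := lt_of_lt_of_le (by norm_num) (hFpos a ha)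
        exact_mod_cast this
      obtain ⟨b, hb⟩ := hFne
      obtain ⟨t, ht, rfl, hdec, hlog⟩ := hFmem a ha b hb
      rw [hx1, decide_eq_false_iff_not] at hdec
      have h1 := term_size_low (hP.lo a (hQP ha)) hij hm3 h3m (by omega) t ht hdec
      have h2 : t.1 < 4 ^ (n + 1) := by
        rw [← hlog]; exact Nat.lt_pow_succ_log_self (by norm_num) _
      have h3 : 4 ^ j < 4 ^ (n + 2) := by
        calc 4 ^ j ≤ 4 * t.1 := h1
          _ < 4 * 4 ^ (n + 1) := by omega
          _ = 4 ^ (n + 2) := by ring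
      have h4 := (Nat.pow_lt_pow_iff_right (by norm_num : 1 < 4)).mp h3
      omega
    · have h1 := hsumU _ hX
      refine le_trans ?_ h1
      refine le_trans ?_ (mul_le_mul_of_nonneg_right hQcard (by positivity))
      rw [← Real.rpow_add (by norm_num)]
      apply Real.rpow_le_rpow_of_exponent_le (by norm_num)
      rw [hdivq]
      have e5 : g * ((i : ℝ) + 1) = g * i + g := by ring
      have e7 : g * ((n : ℝ) - i) = g * n - g * i := by ring
      rw [e5, e7]
      linarith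

end Pool.Agent.Lib_helper2.Collatz
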