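import Pool.Agent.Lib_helper2.CollatzDefs

/-!
# The tree of predecessors and its truncations
-/

namespace Pool.Agent.Lib_helper2.Collatz

open Finset

/-! ### The parent map -/

theorem par_four (n : ℕ) : par (4 * n) = n := by
  unfold par
  have h : 4 * n % 4 = 0 := by omega
  rw [if_pos h]; omega

theorem par_two {n : ℕ} (h : n % 9 = 2) : par ((4 * n - 2) / 3) = n := by
  unfold par
  have h0 : ¬ ((4 * n - 2) / 3) % 4 = 0 := by omega
  have h1 : ((4 * n - 2) / 3) % 4 = 2 := by omega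
  rw [if_neg h0, if_pos h1]; omega

theorem par_eight {n : ℕ} (h : n % 9 = 8) : par ((2 * n - 1) / 3) = n := by
  unfold par
  have h0 : ¬ ((2 * n - 1) / 3) % 4 = 0 := by omega
  have h1 : ¬ ((2 * n - 1) / 3) % 4 = 2 := by omega
  rw [if_neg h0, if_neg h1]; omega

theorem mod3_two {n : ℕ} (h : n % 9 = 2) : ((4 * n - 2) / 3) % 3 = 2 := by omega

theorem mod3_eight {n : ℕ} (h : n % 9 = 8) : ((2 * n - 1) / 3) % 3 = 2 := by omega

/-- `a` is not a periodic point of the parent map. -/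
def NP (a : ℕ) : Prop := ∀ k : ℕ, par^[k + 1] a ≠ a

theorem NP.child {a b : ℕ} (ha : NP a) (hb : par b = a) : NP b := by
  intro k hk
  apply ha k
  have h1 : par^[k + 1] (par b) = par (par^[k + 1] b) := by
    rw [← Function.iterate_succ_apply, ← Function.iterate_succ_apply' par (k + 1) b]
  rw [← hb, h1, hk]

theorem NP.desc {a : ℕ} (ha : NP a) : ∀ (k b : ℕ), par^[k] b = a → NP b := by
  intro k
  induction k with
  | zero => intro b hb; rw [Function.iterate_zero_apply] at hb; rw [hb]; exact ha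
  | succ k ih =>
    intro b hb
    rw [Function.iterate_succ_apply] at hb
    exact (ih (par b) hb).child rfl

theorem sib_aux {a b1 b2 x : ℕ} (ha : NP a) (h1 : par b1 = a) (h2 : par b2 = a) (hne : b1 ≠ b2)
    {i d : ℕ} (hi : par^[i] x = b1) (hj : par^[i + d] x = b2) : False := by
  rw [Nat.add_comm, Function.iterate_add_apply, hi] at hj
  cases d with
  | zero => exact hne hj
  | succ d =>
    rw [Function.iterate_succ_apply, h1] at hj
    apply ha d
    rw [Function.iterate_succ_apply', hj, h2]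

theorem sib {a b1 b2 x : ℕ} (ha : NP a) (h1 : par b1 = a) (h2 : par b2 = a) (hne : b1 ≠ b2)
    {i j : ℕ} (hi : par^[i] x = b1) (hj : par^[j] x = b2) : False := by
  rcases le_total i j with h | h
  · obtain ⟨d, rfl⟩ := Nat.exists_eq_add_of_le h
    exact sib_aux ha h1 h2 hne hi hj
  · obtain ⟨d, rfl⟩ := Nat.exists_eq_add_of_le h
    exact sib_aux ha h2 h1 (Ne.symm hne) hj hi

/-! ### Truncated trees -/

/-- Terminal nodes `(b, E, u)` of the truncated tree of descendants of `a`: `E` counts factors of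
two and `u` counts factors of three used on the way from the root, `stop` is the stopping rule,
the first argument is the remaining number of steps. -/
def Term (stop : ℕ → ℕ → Bool) : ℕ → ℕ → ℕ → ℕ → Finset (ℕ × ℕ × ℕ)
  | 0, E, u, a => {(a, E, u)}
  | l + 1, E, u, a =>
    if stop E u = true then {(a, E, u)} else
      Term stop l (E + 2) u (4 * a) ∪
        (if a % 9 = 2 then Term stop l (E + 2) (u + 1) ((4 * a - 2) / 3)
         else if a % 9 = 8 then Term stop l (E + 1) (u + 1) ((2 * a - 1) / 3) else ∅)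

variable {stop : ℕ → ℕ → Bool}

theorem Term_zero (E u a : ℕ) : Term stop 0 E u a = {(a, E, u)} := rfl

theorem Term_succ (l E u a : ℕ) : Term stop (l + 1) E u a =
    if stop E u = true then {(a, E, u)} else
      Term stop l (E + 2) u (4 * a) ∪
        (if a % 9 = 2 then Term stop l (E + 2) (u + 1) ((4 * a - 2) / 3)
         else if a % 9 = 8 then Term stop l (E + 1) (u + 1) ((2 * a - 1) / 3) else ∅) := rfl

/-- Induction principle for properties of terminal nodes. -/
theorem Term_induction (P : ℕ → ℕ → ℕ → Prop) (Q : ℕ → ℕ → ℕ → Prop)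
    (hPQ0 : ∀ E u a, P E u a → Q a E u)
    (h4 : ∀ E u a, P E u a → stop E u = false → P (E + 2) u (4 * a))
    (h2 : ∀ E u a, P E u a → stop E u = false → a % 9 = 2 →
      P (E + 2) (u + 1) ((4 * a - 2) / 3))
    (h8 : ∀ E u a, P E u a → stop E u = false → a % 9 = 8 →
      P (E + 1) (u + 1) ((2 * a - 1) / 3)) :
    ∀ (l E u a : ℕ), P E u a → ∀ t ∈ Term stop l E u a, Q t.1 t.2.1 t.2.2 := by
  intro l
  induction l with
  | zero =>
    intro E u a hP t ht
    simp only [Term, mem_singleton] at ht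
    subst ht; exact hPQ0 _ _ _ hP
  | succ l ih =>
    intro E u a hP t ht
    rw [Term_succ] at ht
    split_ifs at ht with hs ha ha8
    · simp only [mem_singleton] at ht
      subst ht; exact hPQ0 _ _ _ hP
    · have hs' : stop E u = false := by simpa using hs
      rcases mem_union.mp ht with h | h
      · exact ih _ _ _ (h4 _ _ _ hP hs') t h
      · exact ih _ _ _ (h2 _ _ _ hP hs' ha) t h
    · have hs' : stop E u = false := by simpa using hs
      rcases mem_union.mp ht with h | h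
      · exact ih _ _ _ (h4 _ _ _ hP hs') t h
      · exact ih _ _ _ (h8 _ _ _ hP hs' ha8) t h
    · have hs' : stop E u = false := by simpa using hs
      rcases mem_union.mp ht with h | h
      · exact ih _ _ _ (h4 _ _ _ hP hs') t h
      · simp at h

theorem Term_mod (l E u a : ℕ) (ha : a % 3 = 2) : ∀ t ∈ Term stop l E u a, t.1 % 3 = 2 :=
  Term_induction (fun _ _ a => a % 3 = 2) (fun b _ _ => b % 3 = 2) (fun _ _ _ h => h)
    (fun _ _ a h _ => by omega) (fun _ _ a _ _ h => mod3_two h) (fun _ _ a _ _ h => mod3_eight h)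
    l E u a ha

theorem Term_desc (r : ℕ) (l E u a : ℕ) (ha : ∃ k, par^[k] a = r) :
    ∀ t ∈ Term stop l E u a, ∃ k, par^[k] t.1 = r :=
  Term_induction (fun _ _ a => ∃ k, par^[k] a = r) (fun b _ _ => ∃ k, par^[k] b = r)
    (fun _ _ _ h => h)
    (fun _ _ a ⟨k, hk⟩ _ => ⟨k + 1, by rw [Function.iterate_succ_apply, par_four, hk]⟩)
    (fun _ _ a ⟨k, hk⟩ _ h => ⟨k + 1, by rw [Function.iterate_succ_apply, par_two h, hk]⟩)
    (fun _ _ a ⟨k, hk⟩ _ h => ⟨k + 1, by rw [Function.iterate_succ_apply, par_eight h, hk]⟩)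
    l E u a ha

theorem Term_desc_self (l E u a : ℕ) : ∀ t ∈ Term stop l E u a, ∃ k, par^[k] t.1 = a :=
  Term_desc a l E u a ⟨0, rfl⟩

/-- Sums over the terminal nodes satisfy the obvious recursion. -/
theorem sum_Term_succ {l E u a : ℕ} (ha : NP a) (hs : stop E u = false)
    (f : ℕ × ℕ × ℕ → ℝ) :
    ∑ t ∈ Term stop (l + 1) E u a, f t = ∑ t ∈ Term stop l (E + 2) u (4 * a), f t
      + (if a % 9 = 2 then ∑ t ∈ Term stop l (E + 2) (u + 1) ((4 * a - 2) / 3), f t
         else if a % 9 = 8 then ∑ t ∈ Term stop l (E + 1) (u + 1) ((2 * a - 1) / 3), f t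
         else 0) := by
  have hs' : ¬ (stop E u = true) := by simp [hs]
  rw [Term_succ, if_neg hs']
  by_cases h2 : a % 9 = 2
  · rw [if_pos h2, if_pos h2, sum_union]
    rw [Finset.disjoint_left]
    intro t ht ht'
    obtain ⟨i, hi⟩ := Term_desc_self _ _ _ _ t ht
    obtain ⟨j, hj⟩ := Term_desc_self _ _ _ _ t ht'
    exact sib ha (par_four a) (par_two h2) (by omega) hi hj
  · by_cases h8 : a % 9 = 8
    · rw [if_neg h2, if_pos h8, if_neg h2, if_pos h8, sum_union]
      rw [Finset.disjoint_left]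
      intro t ht ht'
      obtain ⟨i, hi⟩ := Term_desc_self _ _ _ _ t ht
      obtain ⟨j, hj⟩ := Term_desc_self _ _ _ _ t ht'
      exact sib ha (par_four a) (par_eight h8) (by omega) hi hj
    · rw [if_neg h2, if_neg h8, if_neg h2, if_neg h8, union_empty, add_zero]

theorem sum_Term_stop {l E u a : ℕ} (hs : stop E u = true) (f : ℕ × ℕ × ℕ → ℝ) :
    ∑ t ∈ Term stop l E u a, f t = f (a, E, u) := by
  cases l with
  | zero => simp [Term]
  | succ l => simp [Term, hs]

/-- Distinct terminal nodes are incomparable. -/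
theorem Term_indep : ∀ (l E u a : ℕ), NP a → ∀ t ∈ Term stop l E u a, ∀ t' ∈ Term stop l E u a,
    ∀ k, par^[k] t.1 = t'.1 → t = t' := by
  intro l
  induction l with
  | zero =>
    intro E u a _ t ht t' ht' k _
    simp only [Term, mem_singleton] at ht ht'
    rw [ht, ht']
  | succ l ih =>
    intro E u a ha t ht t' ht' k hk
    -- a general statement for two branches
    have key : ∀ (b : ℕ) (S : Finset (ℕ × ℕ × ℕ)), par b = a → b ≠ 4 * a →
        (∀ s ∈ S, ∃ k, par^[k] s.1 = b) →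
        (∀ s ∈ S, ∀ s' ∈ S, ∀ k, par^[k] s.1 = s'.1 → s = s') →
        t ∈ Term stop l (E + 2) u (4 * a) ∪ S → t' ∈ Term stop l (E + 2) u (4 * a) ∪ S →
        t = t' := by
      intro b S hb hne hdesc hind h1 h2
      rcases mem_union.mp h1 with h1 | h1 <;> rcases mem_union.mp h2 with h2 | h2
      · exact ih _ _ _ (ha.child (par_four a)) t h1 t' h2 k hk
      · exfalso
        obtain ⟨i, hi⟩ := Term_desc_self _ _ _ _ t h1
        obtain ⟨j, hj⟩ := hdesc t' h2
        rw [← hk, ← Function.iterate_add_apply] at hj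
        exact sib ha (par_four a) hb (Ne.symm hne) hi hj
      · exfalso
        obtain ⟨i, hi⟩ := hdesc t h1
        obtain ⟨j, hj⟩ := Term_desc_self _ _ _ _ t' h2
        rw [← hk, ← Function.iterate_add_apply] at hj
        exact sib ha (par_four a) hb (Ne.symm hne) hj hi
      · exact hind t h1 t' h2 k hk
    rw [Term_succ] at ht ht'
    split_ifs at ht ht' with hs h2 h8
    · simp only [mem_singleton] at ht ht'
      rw [ht, ht']
    · exact key _ _ (par_two h2) (by omega) (Term_desc_self _ _ _ _)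
        (ih _ _ _ (ha.child (par_two h2))) ht ht'
    · exact key _ _ (par_eight h8) (by omega) (Term_desc_self _ _ _ _)
        (ih _ _ _ (ha.child (par_eight h8))) ht ht'
    · rw [union_empty] at ht ht'
      exact ih _ _ _ (ha.child (par_four a)) t ht t' ht' k hk

theorem Term_fst_inj {l E u a : ℕ} (ha : NP a) :
    Set.InjOn (fun t : ℕ × ℕ × ℕ => t.1) (Term stop l E u a : Set (ℕ × ℕ × ℕ)) := by
  intro t ht t' ht' h
  exact Term_indep l E u a ha t ht t' ht' 0 h

/-! ### Sizes -/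

theorem Term_upper (l a : ℕ) : ∀ t ∈ Term stop l 0 0 a, 3 ^ t.2.2 * t.1 ≤ 2 ^ t.2.1 * a := by
  refine Term_induction (fun E u b => 3 ^ u * b ≤ 2 ^ E * a) (fun b E u => 3 ^ u * b ≤ 2 ^ E * a)
    (fun _ _ _ h => h) ?_ ?_ ?_ l 0 0 a (by simp)
  · intro E u b h _
    rw [pow_add]; nlinarith
  · intro E u b h _ hb
    have h3 : 3 * ((4 * b - 2) / 3) ≤ 4 * b := by omega
    calc 3 ^ (u + 1) * ((4 * b - 2) / 3) = 3 ^ u * (3 * ((4 * b - 2) / 3)) := by ring
      _ ≤ 3 ^ u * (4 * b) := Nat.mul_le_mul_left _ h3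
      _ = 4 * (3 ^ u * b) := by ring
      _ ≤ 4 * (2 ^ E * a) := Nat.mul_le_mul_left _ h
      _ = 2 ^ (E + 2) * a := by ring
  · intro E u b h _ hb
    have h3 : 3 * ((2 * b - 1) / 3) ≤ 2 * b := by omega
    calc 3 ^ (u + 1) * ((2 * b - 1) / 3) = 3 ^ u * (3 * ((2 * b - 1) / 3)) := by ring
      _ ≤ 3 ^ u * (2 * b) := Nat.mul_le_mul_left _ h3
      _ = 2 * (3 ^ u * b) := by ring
      _ ≤ 2 * (2 ^ E * a) := Nat.mul_le_mul_left _ h
      _ = 2 ^ (E + 1) * a := by ring

/-- Lower bound for the size of terminal nodes. -/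
theorem Term_lower (l a : ℕ) : ∀ t ∈ Term stop l 0 0 a,
    (2 : ℝ) ^ t.2.1 * ((a : ℝ) + 1) ≤ 3 ^ t.2.2 * t.1 + 2 ^ t.2.1 * (3 / 2 : ℝ) ^ t.2.2 := by
  have main := Term_induction (stop := stop)
    (fun E u b => u ≤ E ∧ (2 : ℝ) ^ E * ((a : ℝ) + 1) ≤ 3 ^ u * b + 2 ^ E * (3 / 2 : ℝ) ^ u)
    (fun b E u => (2 : ℝ) ^ E * ((a : ℝ) + 1) ≤ 3 ^ u * b + 2 ^ E * (3 / 2 : ℝ) ^ u)
    (fun _ _ _ h => h.2) ?_ ?_ ?_ l 0 0 a ⟨le_refl _, by simp⟩
  · exact main
  · rintro E u b ⟨hE, h⟩ _
    refine ⟨by omega, ?_⟩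
    push_cast
    rw [pow_add]
    nlinarith
  · rintro E u b ⟨hE, h⟩ _ hb
    refine ⟨by omega, ?_⟩
    have h3 : 3 * ((4 * b - 2) / 3) + 2 = 4 * b := by omega
    have h3' : 3 * (((4 * b - 2) / 3 : ℕ) : ℝ) + 2 = 4 * b := by exact_mod_cast h3
    have hx : (3 : ℝ) ^ u ≤ 2 ^ E * (3 / 2 : ℝ) ^ u := by
      have : (3 : ℝ) ^ u = 2 ^ u * (3 / 2 : ℝ) ^ u := by rw [← mul_pow]; norm_num
      rw [this]
      apply mul_le_mul_of_nonneg_right _ (by positivity)
      exact pow_le_pow_right₀ (by norm_num) hE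
    have e1 : (3 : ℝ) ^ (u + 1) * (((4 * b - 2) / 3 : ℕ) : ℝ)
        = 3 ^ u * (4 * b - 2) := by
      rw [pow_succ, mul_assoc, ← h3']; ring
    rw [e1]
    have e2 : (2 : ℝ) ^ (E + 2) * (3 / 2 : ℝ) ^ (u + 1) = 6 * (2 ^ E * (3 / 2 : ℝ) ^ u) := by ring
    have e3 : (2 : ℝ) ^ (E + 2) * ((a : ℝ) + 1) = 4 * (2 ^ E * ((a : ℝ) + 1)) := by ring
    rw [e2, e3]
    nlinarith
  · rintro E u b ⟨hE, h⟩ _ hb
    refine ⟨by omega, ?_⟩
    have h3 : 3 * ((2 * b - 1) / 3) + 1 = 2 * b := by omega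
    have h3' : 3 * (((2 * b - 1) / 3 : ℕ) : ℝ) + 1 = 2 * b := by exact_mod_cast h3
    have hx : (3 : ℝ) ^ u ≤ 2 ^ E * (3 / 2 : ℝ) ^ u := by
      have : (3 : ℝ) ^ u = 2 ^ u * (3 / 2 : ℝ) ^ u := by rw [← mul_pow]; norm_num
      rw [this]
      apply mul_le_mul_of_nonneg_right _ (by positivity)
      exact pow_le_pow_right₀ (by norm_num) hE
    have e1 : (3 : ℝ) ^ (u + 1) * (((2 * b - 1) / 3 : ℕ) : ℝ)
        = 3 ^ u * (2 * b - 1) := by
      rw [pow_succ, mul_assoc, ← h3']; ring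
    rw [e1]
    have e2 : (2 : ℝ) ^ (E + 1) * (3 / 2 : ℝ) ^ (u + 1) = 3 * (2 ^ E * (3 / 2 : ℝ) ^ u) := by ring
    have e3 : (2 : ℝ) ^ (E + 1) * ((a : ℝ) + 1) = 2 * (2 ^ E * ((a : ℝ) + 1)) := by ring
    rw [e2, e3]
    nlinarith

/-- Either the stopping rule applies at a terminal node or all the fuel has been used. -/
theorem Term_stop : ∀ (l E u a : ℕ), ∀ t ∈ Term stop l E u a,
    stop t.2.1 t.2.2 = true ∨ E + l ≤ t.2.1 := by
  intro l
  induction l with
  | zero =>
    intro E u a t ht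
    simp only [Term, mem_singleton] at ht
    right; subst ht; simp
  | succ l ih =>
    intro E u a t ht
    rw [Term_succ] at ht
    split_ifs at ht with hs h2 h8
    · simp only [mem_singleton] at ht
      left; subst ht; exact hs
    · rcases mem_union.mp ht with h | h
      · rcases ih _ _ _ t h with h | h
        · left; exact h
        · right; omega
      · rcases ih _ _ _ t h with h | h
        · left; exact h
        · right; omega
    · rcases mem_union.mp ht with h | h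
      · rcases ih _ _ _ t h with h | h
        · left; exact h
        · right; omega
      · rcases ih _ _ _ t h with h | h
        · left; exact h
        · right; omega
    · rcases mem_union.mp ht with h | h
      · rcases ih _ _ _ t h with h | h
        · left; exact h
        · right; omega
      · simp at h

/-- The stopping rule: `m` digits are used up, or the nominal size ratio `2^E / 3^u` is at
least `R`. -/
def stopRule (m R : ℕ) (E u : ℕ) : Bool := decide (m ≤ u) || decide (R * 3 ^ u ≤ 2 ^ E)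

theorem stopRule_true {m R E u : ℕ} : stopRule m R E u = true ↔ m ≤ u ∨ R * 3 ^ u ≤ 2 ^ E := by
  simp [stopRule]

theorem stopRule_false {m R E u : ℕ} : stopRule m R E u = false ↔ u < m ∧ 2 ^ E < R * 3 ^ u := by
  simp [stopRule]

theorem Term_ratio (m R l a : ℕ) (hR : 1 ≤ R) : ∀ t ∈ Term (stopRule m R) l 0 0 a,
    t.2.2 ≤ m ∧ 2 ^ t.2.1 < 4 * R * 3 ^ t.2.2 := by
  refine Term_induction (stop := stopRule m R) (fun E u _ => u ≤ m ∧ 2 ^ E < 4 * R * 3 ^ u)
    (fun _ E u => u ≤ m ∧ 2 ^ E < 4 * R * 3 ^ u) (fun _ _ _ h => h) ?_ ?_ ?_ l 0 0 a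
    ⟨Nat.zero_le _, by simp; omega⟩
  · rintro E u b ⟨h1, h2⟩ hs
    obtain ⟨hs1, hs2⟩ := stopRule_false.mp hs
    refine ⟨h1, ?_⟩
    rw [pow_add]; nlinarith
  · rintro E u b ⟨h1, h2⟩ hs _
    obtain ⟨hs1, hs2⟩ := stopRule_false.mp hs
    refine ⟨hs1, ?_⟩
    rw [pow_add, pow_succ 3 u]; nlinarith
  · rintro E u b ⟨h1, h2⟩ hs _
    obtain ⟨hs1, hs2⟩ := stopRule_false.mp hs
    refine ⟨hs1, ?_⟩
    rw [pow_add, pow_succ 3 u]
    have : 0 ≤ R * 3 ^ u := Nat.zero_le _
    nlinarith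

theorem Term_stopped (m R l a : ℕ) (hl : 2 * m + Nat.log 2 R + 1 ≤ l) :
    ∀ t ∈ Term (stopRule m R) l 0 0 a, t.2.2 = m ∨ R * 3 ^ t.2.2 ≤ 2 ^ t.2.1 := by
  intro t ht
  by_cases hR : 1 ≤ R
  · have h1 := Term_ratio m R l a hR t ht
    rcases Term_stop _ _ _ _ t ht with h | h
    · rcases stopRule_true.mp h with h | h
      · left; omega
      · right; exact h
    · by_cases hm : t.2.2 = m
      · left; exact hm
      · right
        have hlt : R < 2 ^ (Nat.log 2 R + 1) := Nat.lt_pow_succ_log_self (by norm_num) R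
        calc R * 3 ^ t.2.2 ≤ 2 ^ (Nat.log 2 R + 1) * 4 ^ t.2.2 :=
              Nat.mul_le_mul hlt.le (Nat.pow_le_pow_left (by norm_num) _)
          _ = 2 ^ (Nat.log 2 R + 1 + 2 * t.2.2) := by
              rw [pow_add 2 (Nat.log 2 R + 1), pow_mul 2 2 t.2.2]; norm_num
          _ ≤ 2 ^ t.2.1 := Nat.pow_le_pow_right (by norm_num) (by omega)
  · right
    have : R = 0 := by omega
    subst this; simp

/-- A bound valid for every root: the sum of the inverse square roots of the nominal ratios. -/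
theorem Term_sqrt_sum (m R : ℕ) : ∀ (l E u a : ℕ), NP a → u ≤ m →
    ∑ t ∈ Term (stopRule m R) l E u a, (√3) ^ t.2.2 * (√(1 / 2)) ^ t.2.1
      ≤ (√3) ^ u * (√(1 / 2)) ^ E * (5 / 2 : ℝ) ^ (m - u) := by
  have hβ : (√(1 / 2) : ℝ) ^ 2 = 1 / 2 := Real.sq_sqrt (by norm_num)
  have hα : (√3 : ℝ) ^ 2 = 3 := Real.sq_sqrt (by norm_num)
  have hβ0 : (0 : ℝ) ≤ √(1 / 2) := Real.sqrt_nonneg _
  have hα0 : (0 : ℝ) ≤ √3 := Real.sqrt_nonneg _
  have h1 : (√3 : ℝ) * √(1 / 2) ≤ 5 / 4 := by
    have : ((√3 : ℝ) * √(1 / 2)) ^ 2 ≤ (5 / 4) ^ 2 := by rw [mul_pow, hα, hβ]; norm_num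
    exact (pow_le_pow_iff_left₀ (by positivity) (by norm_num) (by norm_num)).mp this
  have h2 : (√3 : ℝ) * √(1 / 2) ^ 2 ≤ 5 / 4 := by
    rw [hβ]
    have : (√3 : ℝ) ≤ 5 / 2 := by
      rw [Real.sqrt_le_left (by norm_num)]; norm_num
    linarith
  have h52 : ∀ n : ℕ, (1 : ℝ) ≤ (5 / 2 : ℝ) ^ n := fun n => one_le_pow₀ (by norm_num)
  intro l
  induction l with
  | zero =>
    intro E u a _ _
    simp only [Term, sum_singleton]
    have := h52 (m - u)
    have hp : (0 : ℝ) ≤ (√3) ^ u * (√(1 / 2)) ^ E := by positivity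
    nlinarith
  | succ l ih =>
    intro E u a ha hu
    by_cases hs : stopRule m R E u = true
    · rw [sum_Term_stop hs]
      have := h52 (m - u)
      have hp : (0 : ℝ) ≤ (√3) ^ u * (√(1 / 2)) ^ E := by positivity
      simp only
      nlinarith
    · have hs' : stopRule m R E u = false := by simpa using hs
      obtain ⟨hum, -⟩ := stopRule_false.mp hs'
      rw [sum_Term_succ ha hs']
      have i4 := ih (E + 2) u (4 * a) (ha.child (par_four a)) hu
      have hmu : m - u = (m - (u + 1)) + 1 := by omega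
      have hp : (0 : ℝ) ≤ (√3) ^ u * (√(1 / 2)) ^ E := by positivity
      set X : ℝ := (√3) ^ u * (√(1 / 2)) ^ E with hX
      set Y : ℝ := (5 / 2 : ℝ) ^ (m - (u + 1)) with hY
      have hY0 : 0 ≤ Y := by positivity
      have e4 : (√3 : ℝ) ^ u * (√(1 / 2)) ^ (E + 2) * (5 / 2 : ℝ) ^ (m - u)
          = X * (1 / 2) * (Y * (5 / 2)) := by
        rw [hmu, pow_succ (5 / 2 : ℝ), pow_add, hβ, hX, hY]; ring
      rw [e4] at i4
      have hgoal : (√3 : ℝ) ^ u * (√(1 / 2)) ^ E * (5 / 2 : ℝ) ^ (m - u) = X * (Y * (5 / 2)) := by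
        rw [hmu, pow_succ (5 / 2 : ℝ)]
      rw [hgoal]
      have hrest : (if a % 9 = 2 then ∑ t ∈ Term (stopRule m R) l (E + 2) (u + 1)
            ((4 * a - 2) / 3), (√3 : ℝ) ^ t.2.2 * (√(1 / 2)) ^ t.2.1
          else if a % 9 = 8 then ∑ t ∈ Term (stopRule m R) l (E + 1) (u + 1)
            ((2 * a - 1) / 3), (√3 : ℝ) ^ t.2.2 * (√(1 / 2)) ^ t.2.1
          else 0) ≤ X * (5 / 4) * Y := by
        split_ifs with g2 g8
        · refine (ih (E + 2) (u + 1) _ (ha.child (par_two g2)) hum).trans ?_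
          rw [← hY]
          apply mul_le_mul_of_nonneg_right _ hY0
          calc (√3 : ℝ) ^ (u + 1) * (√(1 / 2)) ^ (E + 2)
              = X * (√3 * √(1 / 2) ^ 2) := by rw [hX]; ring
            _ ≤ X * (5 / 4) := mul_le_mul_of_nonneg_left h2 hp
        · refine (ih (E + 1) (u + 1) _ (ha.child (par_eight g8)) hum).trans ?_
          rw [← hY]
          apply mul_le_mul_of_nonneg_right _ hY0
          calc (√3 : ℝ) ^ (u + 1) * (√(1 / 2)) ^ (E + 1)
              = X * (√3 * √(1 / 2)) := by rw [hX]; ring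
            _ ≤ X * (5 / 4) := mul_le_mul_of_nonneg_left h1 hp
        · positivity
      nlinarith

end Pool.Agent.Lib_helper2.Collatz
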